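import Pool.Agent.T6.H62.PP.TailG
import Pool.Agent.T6.H62.PP.Val
import Pool.Agent.T6.H62.PP.GFin
import Pool.Agent.T6.H62.PP.Sel

/-!
# All but finitely many of the polynomials `x ^ d + c`, `d ≡ 4 mod 6`, `d ≥ 10`, have at most two
rational preperiodic points
-/

set_option autoImplicit false

namespace Pool.Agent.K6.H33.Gen

open Finset Pool.Agent.T6.H62.UB Pool.Agent.T6.H62.PP Pool.Agent.T6.H62.PP.G

/-- the parameters given by three ratios from `F` -/
def Bad (d : ℕ) (F : Set ℚ) : Set ℚ :=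
  {c : ℚ | ∃ t ∈ F, ∃ t' ∈ F, ∃ t'' ∈ insert 1 F, ∃ y : ℚ, t ^ d ≠ 1 ∧
    y ^ (d - 1) * (t ^ d - 1) = (t' - 1) * t'' ∧ c = t'' * y - y ^ d}

theorem bad_finite {d : ℕ} (hd : 2 ≤ d) {F : Set ℚ} (hF : F.Finite) : (Bad d F).Finite := by
  classical
  have h1 : (F ×ˢ (F ×ˢ insert 1 F)).Finite := hF.prod (hF.prod (hF.insert 1))
  refine Set.Finite.subset (h1.biUnion (t := fun q : ℚ × ℚ × ℚ =>
    (fun y : ℚ => q.2.2 * y - y ^ d) ''
      ((Polynomial.nthRoots (d - 1) ((q.2.1 - 1) * q.2.2 / (q.1 ^ d - 1))).toFinset : Set ℚ))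
    (fun q _ => (Finset.finite_toSet _).image _)) ?_
  rintro c ⟨t, ht, t', ht', t'', ht'', y, h2, h3, rfl⟩
  rw [Set.mem_iUnion₂]
  refine ⟨(t, t', t''), ⟨ht, ht', ht''⟩, y, ?_, rfl⟩
  simp only [Finset.mem_coe, Multiset.mem_toFinset]
  rw [Polynomial.mem_nthRoots (by omega), eq_div_iff (sub_ne_zero.2 h2)]
  exact h3

section

variable {d v : ℕ} {b : ℤ} {O : Finset ℤ} {φ : ℤ → ℤ}

/-- two periodic points, bad reduction somewhere -/
theorem ratios (h : Sys d 1 b (v ^ 3) O φ) (hd : 2 ≤ d) (hv : 2 ≤ v) {F : Set ℚ}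
    (hF : ∀ X U : ℤ, F3' d X U → (X : ℚ) / (U : ℚ) ∈ F) {u w : ℤ} (hu : u ∈ O) (hw : w ∈ O)
    (pu : Per φ u) (pw : Per φ w) (hne : u ≠ w) :
    ∃ t ∈ F, ∃ t' ∈ F, ∃ t'' ∈ insert 1 F, t ^ d ≠ 1 ∧
      (w : ℚ) ^ (d - 1) * (t ^ d - 1) = (v : ℚ) ^ 3 * ((t' - 1) * t'') ∧
      (b : ℚ) = (v : ℚ) ^ 3 * (t'' * w) - (w : ℚ) ^ d ∧ w ≠ 0 := by
  have hv0 : 0 < v := by omega
  have hw0 := ne_zero_of_mem h hd hv hw
  have hφw0 := ne_zero_of_mem h hd hv (h.maps w hw)
  have hw0' : (w : ℚ) ≠ 0 := by exact_mod_cast hw0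
  have hφw0' : ((φ w : ℤ) : ℚ) ≠ 0 := by exact_mod_cast hφw0
  have hn := per_NM pu pw hne
  have hpow := NM.pow_ne h hv0 hu hw hn
  have pu' : Per φ (φ u) := by simpa using pu.iter 1
  have pw' : Per φ (φ w) := by simpa using pw.iter 1
  have e1 : ((v : ℚ)) ^ 3 * (φ w : ℚ) = (w : ℚ) ^ d + b := by exact_mod_cast eqn' h hw
  have e2 : ((v : ℚ)) ^ 3 * ((φ u : ℚ) - (φ w : ℚ)) = (u : ℚ) ^ d - (w : ℚ) ^ d := by
    exact_mod_cast eqn_sub h hu hw
  refine ⟨(u : ℚ) / w, hF u w (F3'_of_per h hd hv hu hw pu pw hne),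
    ((φ u : ℤ) : ℚ) / ((φ w : ℤ) : ℚ),
    hF _ _ (F3'_of_per h hd hv (h.maps u hu) (h.maps w hw) pu' pw' hn.step.ne),
    ((φ w : ℤ) : ℚ) / w, ?_, ?_, ?_, ?_, hw0⟩
  · by_cases hfix : φ w = w
    · rw [hfix, div_self hw0']; exact Set.mem_insert _ _
    · exact Set.mem_insert_of_mem _
        (hF _ _ (F3'_of_per h hd hv (h.maps w hw) hw pw' pw hfix))
  · intro h0
    rw [div_pow, div_eq_one_iff_eq (pow_ne_zero _ hw0')] at h0
    exact hpow (by exact_mod_cast h0)
  · obtain ⟨e, rfl⟩ : ∃ e, d = e + 1 := ⟨d - 1, by omega⟩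
    simp only [Nat.add_sub_cancel]
    rw [div_pow]
    have h1 : (w : ℚ) ^ e * ((u : ℚ) ^ (e + 1) / (w : ℚ) ^ (e + 1) - 1) =
        ((u : ℚ) ^ (e + 1) - (w : ℚ) ^ (e + 1)) / w := by
      field_simp
      ring
    rw [h1, ← e2]
    field_simp
  · rw [div_mul_cancel₀ _ hw0']
    linear_combination -e1

/-- two periodic points, good reduction everywhere -/
theorem ints (h : Sys d 1 b (1 ^ 3) O φ) (hd : 4 ≤ d) (hde : Even d) {u w : ℤ} (hu : u ∈ O)
    (hw : w ∈ O) (pu : Per φ u) (pw : Per φ w) (hne : u ≠ w) : |b| ≤ 2 := by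
  -- periodic points are `0` and `± 1`
  have key : ∀ {u w : ℤ}, u ∈ O → w ∈ O → Per φ u → Per φ w → u ≠ w → |w| ≤ 1 ∧ |u| ≤ 1 := by
    intro u w hu hw pu pw hne
    have hn := per_NM pu pw hne
    have hpow := NM.pow_ne h one_pos hu hw hn
    have hunit : (Psi d u w).natAbs = 1 := by
      by_contra hcon
      obtain ⟨q, hq, hqd⟩ := Nat.exists_prime_and_dvd hcon
      exact not_dvd_psi_of_per h one_pos hu hw pu pw hne hq
        (fun h1 => hq.one_lt.ne' (Nat.dvd_one.1 h1)) (Int.natCast_dvd.2 hqd)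
    have h1 : |u ^ d - w ^ d| = |u - w| := by
      rw [← psi_mul, abs_mul, Int.abs_eq_natAbs (Psi d u w), hunit]
      simp
    have h2 : |(|u| ^ d - |w| ^ d)| ≤ |u| + |w| := by
      rw [hde.pow_abs, hde.pow_abs, h1]
      exact abs_sub u w
    have h3 : |u| ≠ |w| := by
      intro h4
      apply hpow
      rw [← hde.pow_abs, h4, hde.pow_abs]
    -- both are at most one
    have aux : ∀ x y : ℤ, 0 ≤ y → y < x → x ^ d - y ^ d ≤ x + y → x ≤ 1 := by
      intro x y hy hyx h4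
      by_contra hx
      push Not at hx
      have h5 : y ^ d ≤ (x - 1) ^ d := pow_le_pow_left₀ hy (by omega) d
      have h6 : (x - 1) ^ d ≤ (x - 1) * x ^ (d - 1) := by
        obtain ⟨e, rfl⟩ : ∃ e, d = e + 1 := ⟨d - 1, by omega⟩
        simp only [Nat.add_sub_cancel]
        rw [pow_succ, mul_comm]
        exact mul_le_mul_of_nonneg_left (pow_le_pow_left₀ (by omega) (by omega) e) (by omega)
      have h7 : x ^ d = x * x ^ (d - 1) := by
        obtain ⟨e, rfl⟩ : ∃ e, d = e + 1 := ⟨d - 1, by omega⟩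
        simp only [Nat.add_sub_cancel]
        rw [pow_succ, mul_comm]
      have h8 : x ^ (d - 1) ≤ x + y := by nlinarith
      have h9 : x ^ 3 ≤ x ^ (d - 1) := pow_le_pow_right₀ (by omega) (by omega)
      nlinarith [sq_nonneg x, mul_self_nonneg (x - 2)]
    rcases lt_or_gt_of_ne h3 with h4 | h4
    · have h5 : |w| ^ d - |u| ^ d ≤ |w| + |u| := by
        have := neg_abs_le (|u| ^ d - |w| ^ d)
        linarith
      have := aux _ _ (abs_nonneg u) h4 h5
      exact ⟨this, by omega⟩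
    · have h5 : |u| ^ d - |w| ^ d ≤ |u| + |w| := (le_abs_self _).trans h2
      have := aux _ _ (abs_nonneg w) h4 h5
      exact ⟨by omega, this⟩
  have pu' : Per φ (φ u) := by simpa using pu.iter 1
  have pw' : Per φ (φ w) := by simpa using pw.iter 1
  have hn := per_NM pu pw hne
  have h1 := (key hu hw pu pw hne).1
  have h2 := (key (h.maps u hu) (h.maps w hw) pu' pw' hn.step.ne).1
  have h3 := eqn' h hw
  have h4 : |w ^ d| ≤ 1 := by
    rw [abs_pow]
    exact pow_le_one₀ (abs_nonneg w) h1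
  have h5 : b = φ w - w ^ d := by
    push_cast at h3
    linarith
  rw [h5]
  exact (abs_sub _ _).trans (by linarith)

end

/-- **All but finitely many parameters.** -/
theorem main {d : ℕ} (hde : Even d) (hd : 6 ≤ d) (h3 : 3 ∣ d - 1) :
    ∃ E : Set ℚ, E.Finite ∧ ∀ c ∉ E, ∀ T : Finset ℚ,
      (∀ x ∈ T, IsPreperiodic (fun x : ℚ => x ^ d + c) x) → T.card ≤ 2 := by
  classical
  obtain ⟨hF, hF'⟩ := fin_of sel gfin
  have hfin := hF' d hde hd
  set F : Set ℚ := {t : ℚ | ∃ X U : ℤ, F3' d X U ∧ t = (X : ℚ) / (U : ℚ)} with hFdef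
  obtain ⟨BT, hBT⟩ := tailG hF hde (by omega : 4 ≤ d)
  obtain ⟨k, hk⟩ := h3
  have hk0 : 1 ≤ k := by omega
  refine ⟨Bad d F ∪ (fun q : ℤ × ℕ => (q.1 : ℚ) / (q.2 : ℚ) ^ d) ''
    ((Icc (-(BT : ℤ) - 2) (BT + 2) ×ˢ range (BT + 2) : Finset (ℤ × ℕ)) : Set (ℤ × ℕ)), ?_, ?_⟩
  · exact (bad_finite (by omega) hfin).union ((Finset.finite_toSet _).image _)
  intro c hc T hT
  by_contra hcard
  push Not at hcard
  apply hc
  obtain ⟨q, b, O, φ, hq, hden, hnum, h, hTO, hev⟩ := exists_sys_c (by omega : 2 ≤ d) T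
    (card_pos.1 (by omega)) hT
  have hV : q ^ (d - 1) = (q ^ k) ^ 3 := by rw [← pow_mul, hk, Nat.mul_comm]
  rw [hV] at h
  have hqQ : (q : ℚ) ≠ 0 := by exact_mod_cast hq.ne'
  have hcb : c = (b : ℚ) / (q : ℚ) ^ d := by
    rw [← Rat.num_div_den c, hden, hnum]
    push_cast
    rfl
  have small : q ≤ BT + 1 → |b| ≤ BT + 2 → c ∈ (fun q : ℤ × ℕ => (q.1 : ℚ) / (q.2 : ℚ) ^ d) ''
      ((Icc (-(BT : ℤ) - 2) (BT + 2) ×ˢ range (BT + 2) : Finset (ℤ × ℕ)) : Set (ℤ × ℕ)) := by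
    intro h1 h2
    refine ⟨(b, q), ?_, hcb.symm⟩
    rw [Finset.mem_coe, mem_product, mem_Icc, mem_range]
    rw [abs_le] at h2
    exact ⟨⟨by simp only; omega, by simp only; omega⟩, by simp only; omega⟩
  by_cases hP1 : (perSet φ O).card ≤ 1
  · right
    rcases tail_one h one_ne_zero hde (by omega) hev hP1 with ⟨z, x, hz, hx, hfz, hfx⟩ | h1
    · by_cases hz0 : z = 0
      · have h1 := h.eqn z hz
        rw [hfz, hz0, zero_pow (by omega)] at h1
        have hb0 : b = 0 := by linarith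
        subst hb0
        have hq1 : q = 1 := by
          have h2 := h.copB
          rw [isCoprime_zero_left] at h2
          rw [← hV] at h2
          have h3 : q ^ (d - 1) = 1 := by
            have := Int.isUnit_iff_natAbs_eq.1 h2
            simpa using this
          exact (Nat.pow_eq_one.1 h3).resolve_right (by omega)
        exact small (by omega) (by rw [abs_zero]; positivity)
      · have h1 := hBT 1 b z x (q ^ k) one_ne_zero (by positivity) h.copA h.copB hz0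
          (by have := h.eqn z hz; rwa [hfz] at this)
          (by have := h.eqn x hx; rwa [hfx] at this)
        have h2 : q ≤ (q ^ k) ^ 3 := by
          calc q = q ^ 1 := (pow_one q).symm
            _ ≤ q ^ (k * 3) := Nat.pow_le_pow_right hq (by omega)
            _ = (q ^ k) ^ 3 := pow_mul q k 3
        refine small (by omega) ?_
        rw [← Int.natCast_natAbs b]
        omega
    · omega
  · obtain ⟨u, hu, w, hw, hne⟩ := one_lt_card.1 (show 1 < (perSet φ O).card by omega)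
    obtain ⟨hu, pu⟩ := mem_perSet.1 hu
    obtain ⟨hw, pw⟩ := mem_perSet.1 hw
    rcases Nat.lt_or_ge q 2 with hq2 | hq2
    · right
      have hq1 : q = 1 := by omega
      subst hq1
      rw [one_pow] at h
      have h1 := ints h (by omega) hde hu hw pu pw hne
      exact small (by omega) (by omega)
    · left
      have hqk : 2 ≤ q ^ k := by
        calc 2 ≤ q := hq2
          _ = q ^ 1 := (pow_one q).symm
          _ ≤ q ^ k := Nat.pow_le_pow_right hq hk0
      obtain ⟨t, ht, t', ht', t'', ht'', h1, h2, h3, hw0⟩ := ratios h (by omega) hqk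
        (F := F) (fun X U hXU => ⟨X, U, hXU, rfl⟩) hu hw pu pw hne
      have hVQ : ((q ^ k : ℕ) : ℚ) ^ 3 = (q : ℚ) ^ (d - 1) := by
        have := congrArg (Nat.cast : ℕ → ℚ) hV
        push_cast at this ⊢
        exact this.symm
      rw [hVQ] at h2 h3
      refine ⟨t, ht, t', ht', t'', ht'', (w : ℚ) / q, h1, ?_, ?_⟩
      · rw [div_pow, div_mul_eq_mul_div, h2, mul_div_cancel_left₀ _ (pow_ne_zero _ hqQ)]
      · rw [hcb, h3, div_pow]
        obtain ⟨e, rfl⟩ : ∃ e, d = e + 1 := ⟨d - 1, by omega⟩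
        simp only [Nat.add_sub_cancel]
        field_simp
        try ring

end Pool.Agent.K6.H33.Gen
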