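import Mathlib

/-!
# Borel-Cantelli in windows around the values of regular families of functions (helper33)

`f n` are positive functions on `(a, ∞)` which expand regularly. Let `S n` be sets of objects such that
at most `q n * X` members of `S n` have height at most `X`, for all `X ≥ 1`. If the sum of
`q n * (w n) ^ s * (f n R) ^ (1 - s)` converges for all `R`, then for all `x > a` outside a set of
`s`-dimensional Hausdorff measure zero, for all but finitely many `n` no member of `S n` has a height at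
distance at most `w n` from `f n x`.
-/

set_option autoImplicit false

open Filter Topology MeasureTheory Finset
open scoped ENNReal NNReal

namespace Pool.Agent.K6.H33.Met

/-- On every compact interval in `(a, ∞)` the functions `f n` are positive and increasing, with
`f n y - f n x ≥ (k n / K) f n x (y - x)` for `x ≤ y` and `f n R ≤ exp (K k n) f n L`, for some `k n ≥ 1`
and `K`. -/
def Regular (a : ℝ) (f : ℕ → ℝ → ℝ) : Prop :=
  ∀ L R : ℝ, a < L → L ≤ R → ∃ (K : ℝ) (k : ℕ → ℝ), 0 < K ∧ (∀ n, 1 ≤ k n) ∧ ∀ n : ℕ,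
    f n R ≤ Real.exp (K * k n) * f n L ∧
    ∀ x y : ℝ, L ≤ x → x ≤ y → y ≤ R → 0 < f n x ∧ k n * f n x * (y - x) ≤ K * (f n y - f n x)

/-- limsup sets of measure zero -/
theorem null_limsup {ι : Type} [Countable ι] (U : ι → Set ℝ) (d : ι → ℝ) (hd : ∀ i, 0 < d i)
    (hU : ∀ i, Metric.ediam (U i) ≤ ENNReal.ofReal (d i)) {D : ℝ} (hD : 0 < D)
    (hs : Summable fun i => d i ^ D) :
    Measure.hausdorffMeasure D {x : ℝ | {i | x ∈ U i}.Infinite} = 0 := by
  -- the diameters tend to zero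
  have hd0 : Tendsto d cofinite (𝓝 0) := by
    have h1 := hs.tendsto_cofinite_zero
    have h2 : Tendsto (fun i => (d i ^ D) ^ (1 / D)) cofinite (𝓝 (0 ^ (1 / D))) :=
      h1.rpow_const (Or.inr (by positivity))
    rw [Real.zero_rpow (by positivity)] at h2
    refine h2.congr fun i => ?_
    rw [← Real.rpow_mul (hd i).le, mul_one_div_cancel hD.ne', Real.rpow_one]
  set r : Finset ι → ℝ≥0∞ := fun F => ⨆ i : {i // i ∉ F}, ENNReal.ofReal (d i) with hr
  have hrt : Tendsto r atTop (𝓝 0) := by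
    rw [ENNReal.tendsto_nhds_zero]
    intro ε hε
    have h1 := ENNReal.tendsto_ofReal hd0
    rw [ENNReal.ofReal_zero] at h1
    have h2 := h1.eventually (ge_mem_nhds hε)
    rw [Filter.eventually_cofinite] at h2
    filter_upwards [eventually_ge_atTop h2.toFinset] with F hF
    refine iSup_le fun i => ?_
    by_contra hcon
    apply i.2
    apply hF
    rw [Set.Finite.mem_toFinset]
    exact hcon
  have key := Measure.hausdorffMeasure_le_liminf_tsum (X := ℝ) (β := Finset ι)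
    (ι := fun F => {i // i ∉ F}) D {x | {i | x ∈ U i}.Infinite} (l := atTop) r hrt
    (fun F i => U i)
    (Eventually.of_forall fun F i =>
      (hU i).trans (le_iSup (fun i : {i // i ∉ F} => ENNReal.ofReal (d i)) i))
    (Eventually.of_forall fun F x hx => by
      obtain ⟨i, hi, hiF⟩ := hx.exists_notMem_finset F
      rw [Set.mem_iUnion]
      exact ⟨⟨i, hiF⟩, hi⟩)
  have hnn : ∀ i, 0 ≤ d i ^ D := fun i => Real.rpow_nonneg (hd i).le _
  have htot : (∑' i, ENNReal.ofReal (d i ^ D)) ≠ ⊤ := by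
    rw [← ENNReal.ofReal_tsum_of_nonneg hnn hs]
    exact ENNReal.ofReal_ne_top
  have h0 : Tendsto (fun F : Finset ι => ∑' i : {i // i ∉ F}, ENNReal.ofReal (d i ^ D)) atTop (𝓝 0) :=
    ENNReal.tendsto_tsum_compl_atTop_zero htot
  have hbound : ∀ F : Finset ι, (∑' i : {i // i ∉ F}, Metric.ediam (U i) ^ D) ≤
      ∑' i : {i // i ∉ F}, ENNReal.ofReal (d i ^ D) := by
    intro F
    apply ENNReal.tsum_le_tsum
    intro i
    rw [← ENNReal.ofReal_rpow_of_pos (hd i)]
    exact ENNReal.rpow_le_rpow (hU i) hD.le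
  have h1 : Tendsto (fun F : Finset ι => ∑' i : {i // i ∉ F}, Metric.ediam (U i) ^ D) atTop (𝓝 0) :=
    tendsto_of_tendsto_of_tendsto_of_le_of_le tendsto_const_nhds h0 (fun _ => zero_le) hbound
  rw [h1.liminf_eq] at key
  exact le_antisymm key zero_le

/-- the dyadic decomposition -/
theorem dyadic {T : Type} (S : Set T) (h : T → ℝ) {q : ℝ}
    (hcount : ∀ X : ℝ, 1 ≤ X → {t | t ∈ S ∧ h t ≤ X}.Finite ∧
      ({t | t ∈ S ∧ h t ≤ X}.ncard : ℝ) ≤ q * X) {M0 M1 s : ℝ} (hM0 : 1 ≤ M0) (hs0 : 0 < s)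
    (G : Finset T) (hG : ∀ t ∈ G, t ∈ S ∧ M0 ≤ h t ∧ h t ≤ M1) :
    ∑ t ∈ G, (h t) ^ (-s) ≤ ∑ j ∈ range (⌊Real.logb 2 (M1 / M0)⌋₊ + 1), 2 * q * (2 ^ j * M0) ^ (1 - s) := by
  classical
  have hM00 : 0 < M0 := by linarith
  set k : T → ℕ := fun t => ⌊Real.logb 2 (h t / M0)⌋₊ with hk
  have hpos : ∀ t ∈ G, 1 ≤ h t / M0 := fun t ht => by
    rw [le_div_iff₀ hM00]; linarith [(hG t ht).2.1]
  have hk1 : ∀ t ∈ G, (2 : ℝ) ^ k t * M0 ≤ h t := by
    intro t ht
    have h0 := hpos t ht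
    have h2 : (k t : ℝ) ≤ Real.logb 2 (h t / M0) := Nat.floor_le (Real.logb_nonneg (by norm_num) h0)
    rw [Real.le_logb_iff_rpow_le (by norm_num) (by linarith), Real.rpow_natCast] at h2
    rwa [le_div_iff₀ hM00] at h2
  have hk2 : ∀ t ∈ G, h t ≤ (2 : ℝ) ^ (k t + 1) * M0 := by
    intro t ht
    have h0 := hpos t ht
    have h2 : Real.logb 2 (h t / M0) < (k t : ℝ) + 1 := Nat.lt_floor_add_one _
    rw [Real.logb_lt_iff_lt_rpow (by norm_num) (by linarith)] at h2
    have h3 : (2 : ℝ) ^ ((k t : ℝ) + 1) = (2 : ℝ) ^ (k t + 1) := by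
      rw [← Real.rpow_natCast]
      push_cast
      rfl
    rw [h3, div_lt_iff₀ hM00] at h2
    exact h2.le
  have hkJ : ∀ t ∈ G, k t ∈ range (⌊Real.logb 2 (M1 / M0)⌋₊ + 1) := by
    intro t ht
    rw [mem_range, Nat.lt_succ_iff]
    apply Nat.floor_le_floor
    apply Real.logb_le_logb_of_le (by norm_num) (by linarith [hpos t ht])
    exact div_le_div_of_nonneg_right (hG t ht).2.2 hM00.le
  rw [← Finset.sum_fiberwise_of_maps_to (s := G) hkJ]
  refine Finset.sum_le_sum fun j _ => ?_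
  have hP : (0 : ℝ) < 2 ^ j * M0 := by positivity
  have hX1 : (1 : ℝ) ≤ 2 ^ (j + 1) * M0 := by
    have : (1 : ℝ) ≤ 2 ^ (j + 1) := one_le_pow₀ (by norm_num)
    nlinarith
  obtain ⟨hfin, hle⟩ := hcount _ hX1
  have hcard : ((G.filter (fun t => k t = j)).card : ℝ) ≤ q * (2 ^ (j + 1) * M0) := by
    refine le_trans ?_ hle
    have hsub : ((G.filter (fun t => k t = j) : Finset T) : Set T) ⊆
        {t | t ∈ S ∧ h t ≤ 2 ^ (j + 1) * M0} := by
      intro t ht
      rw [Finset.mem_coe, Finset.mem_filter] at ht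
      have h3 := hk2 t ht.1
      rw [ht.2] at h3
      exact ⟨(hG t ht.1).1, h3⟩
    have h4 := Set.ncard_le_ncard hsub hfin
    rw [Set.ncard_coe_finset] at h4
    exact_mod_cast h4
  calc ∑ t ∈ G.filter (fun t => k t = j), (h t) ^ (-s)
      ≤ ∑ t ∈ G.filter (fun t => k t = j), (2 ^ j * M0) ^ (-s) := by
        refine Finset.sum_le_sum fun t ht => ?_
        rw [Finset.mem_filter] at ht
        have h3 := hk1 t ht.1
        rw [ht.2] at h3
        exact Real.rpow_le_rpow_of_nonpos hP h3 (by linarith)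
    _ = ((G.filter (fun t => k t = j)).card : ℝ) * (2 ^ j * M0) ^ (-s) := by
        rw [Finset.sum_const, nsmul_eq_mul]
    _ ≤ (q * (2 ^ (j + 1) * M0)) * (2 ^ j * M0) ^ (-s) := by gcongr
    _ = 2 * q * (2 ^ j * M0) ^ (1 - s) := by
        rw [show (1 : ℝ) - s = 1 + (-s) by ring, Real.rpow_add hP, Real.rpow_one]
        ring

/-- the sum over a dyadic range, bounded -/
theorem block {s K : ℝ} (hs0 : 0 < s) (hs1 : s ≤ 1) (hK : 0 < K) : ∃ B : ℝ, 0 ≤ B ∧
    ∀ (T : Type) (S : Set T) (h : T → ℝ) (q : ℝ), 0 ≤ q →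
    (∀ X : ℝ, 1 ≤ X → {t | t ∈ S ∧ h t ≤ X}.Finite ∧
      ({t | t ∈ S ∧ h t ≤ X}.ncard : ℝ) ≤ q * X) → ∀ M0 M1 k : ℝ, 1 ≤ M0 → M0 ≤ M1 → 1 ≤ k →
    M1 ≤ 3 * Real.exp (K * k) * M0 →
    ∀ G : Finset T, (∀ t ∈ G, t ∈ S ∧ M0 ≤ h t ∧ h t ≤ M1) →
    ∑ t ∈ G, (h t) ^ (-s) ≤ B * q * M1 ^ (1 - s) * k ^ s := by
  rcases eq_or_lt_of_le hs1 with rfl | hs1
  · have hl2 : 0 < Real.log 2 := Real.log_pos (by norm_num)
    have hl3 : 0 < Real.log 3 := Real.log_pos (by norm_num)
    refine ⟨2 * ((Real.log 3 + K) / Real.log 2 + 1), by positivity, ?_⟩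
    intro T S h q hq hcount M0 M1 k hM0 hM01 hk hMK G hG
    have h1 := dyadic S h hcount hM0 one_pos G hG
    refine h1.trans ?_
    have hM00 : 0 < M0 := by linarith
    simp only [sub_self, Real.rpow_zero, mul_one, Real.rpow_one, Finset.sum_const, card_range, nsmul_eq_mul]
    have h2 : (⌊Real.logb 2 (M1 / M0)⌋₊ : ℝ) ≤ Real.logb 2 (M1 / M0) :=
      Nat.floor_le (Real.logb_nonneg (by norm_num) (by rw [le_div_iff₀ hM00]; linarith))
    have h3 : Real.logb 2 (M1 / M0) ≤ (Real.log 3 + K * k) / Real.log 2 := by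
      rw [Real.logb, div_le_div_iff_of_pos_right hl2]
      have h4 : M1 / M0 ≤ 3 * Real.exp (K * k) := by rwa [div_le_iff₀ hM00]
      calc Real.log (M1 / M0) ≤ Real.log (3 * Real.exp (K * k)) :=
            Real.log_le_log (div_pos (by linarith) hM00) h4
        _ = Real.log 3 + K * k := by
            rw [Real.log_mul (by norm_num) (Real.exp_pos _).ne', Real.log_exp]
    have h5 : (Real.log 3 + K * k) / Real.log 2 ≤ (Real.log 3 + K) / Real.log 2 * k := by
      rw [div_mul_eq_mul_div, div_le_div_iff_of_pos_right hl2]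
      nlinarith
    push_cast
    calc ((⌊Real.logb 2 (M1 / M0)⌋₊ : ℝ) + 1) * (2 * q)
        ≤ ((Real.log 3 + K) / Real.log 2 * k + k) * (2 * q) := by
          apply mul_le_mul_of_nonneg_right _ (by positivity)
          linarith
      _ = 2 * ((Real.log 3 + K) / Real.log 2 + 1) * q * k := by ring
  · set r : ℝ := 2 ^ (1 - s) with hr
    have hr1 : 1 < r := Real.one_lt_rpow (by norm_num) (by linarith)
    have hr0 : 0 < r - 1 := by linarith
    refine ⟨2 * (r / (r - 1)), by positivity, ?_⟩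
    intro T S h q hq hcount M0 M1 k hM0 hM01 hk hMK G hG
    have h1 := dyadic S h hcount hM0 hs0 G hG
    refine h1.trans ?_
    have hM00 : 0 < M0 := by linarith
    have hM10 : 0 < M1 := by linarith
    set J := ⌊Real.logb 2 (M1 / M0)⌋₊ with hJ
    have hterm : ∀ j : ℕ, 2 * q * ((2 : ℝ) ^ j * M0) ^ (1 - s) = 2 * q * M0 ^ (1 - s) * r ^ j := by
      intro j
      rw [Real.mul_rpow (by positivity) hM00.le, hr, ← Real.rpow_natCast, ← Real.rpow_mul (by norm_num),
        mul_comm (j : ℝ), Real.rpow_mul (by norm_num), Real.rpow_natCast]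
      ring
    simp only [hterm]
    rw [← Finset.mul_sum, geom_sum_eq hr1.ne']
    have hJ2 : (2 : ℝ) ^ J * M0 ≤ M1 := by
      have h2 : (J : ℝ) ≤ Real.logb 2 (M1 / M0) :=
        Nat.floor_le (Real.logb_nonneg (by norm_num) (by rw [le_div_iff₀ hM00]; linarith))
      rw [Real.le_logb_iff_rpow_le (by norm_num) (by positivity), Real.rpow_natCast] at h2
      rwa [le_div_iff₀ hM00] at h2
    have hJ3 : M0 ^ (1 - s) * r ^ J ≤ M1 ^ (1 - s) := by
      have e : M0 ^ (1 - s) * r ^ J = ((2 : ℝ) ^ J * M0) ^ (1 - s) := by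
        rw [Real.mul_rpow (by positivity) hM00.le, hr, ← Real.rpow_natCast, ← Real.rpow_mul (by norm_num),
          mul_comm (1 - s), Real.rpow_mul (by norm_num), Real.rpow_natCast]
        ring
      rw [e]
      exact Real.rpow_le_rpow (by positivity) hJ2 (by linarith)
    have hks : 1 ≤ k ^ s := Real.one_le_rpow hk hs0.le
    calc 2 * q * M0 ^ (1 - s) * ((r ^ (J + 1) - 1) / (r - 1))
        ≤ 2 * q * M0 ^ (1 - s) * (r ^ (J + 1) / (r - 1)) := by
          apply mul_le_mul_of_nonneg_left _ (by positivity)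
          apply div_le_div_of_nonneg_right _ hr0.le
          linarith
      _ = 2 * (r / (r - 1)) * q * (M0 ^ (1 - s) * r ^ J) := by
          rw [pow_succ]
          field_simp
      _ ≤ 2 * (r / (r - 1)) * q * M1 ^ (1 - s) := by
          apply mul_le_mul_of_nonneg_left hJ3 (by positivity)
      _ ≤ 2 * (r / (r - 1)) * q * M1 ^ (1 - s) * k ^ s := by
          apply le_mul_of_one_le_right _ hks
          positivity

/-- a compact interval -/
theorem local_null {T : Type} [Countable T] (S : ℕ → Set T) (h : T → ℝ) (q w : ℕ → ℝ)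
    (hq : ∀ n, 0 ≤ q n)
    (hcount : ∀ n, ∀ X : ℝ, 1 ≤ X → {t | t ∈ S n ∧ h t ≤ X}.Finite ∧
      ({t | t ∈ S n ∧ h t ≤ X}.ncard : ℝ) ≤ q n * X)
    {a s : ℝ} {f : ℕ → ℝ → ℝ} (hf : Regular a f) (hw1 : ∀ n, 1 ≤ w n)
    (hs0 : 0 < s) (hs1 : s ≤ 1) {L R : ℝ} (hL : a < L) (hLR : L ≤ R)
    (hw : ∀ᶠ n in atTop, 2 * w n ≤ f n L)
    (hsum : Summable (fun n => q n * w n ^ s * (f n R) ^ (1 - s))) :
    Measure.hausdorffMeasure s
      {x : ℝ | L ≤ x ∧ x ≤ R ∧ ∃ᶠ n in atTop, ∃ t ∈ S n, |h t - f n x| ≤ w n} = 0 := by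
  classical
  obtain ⟨K, k, hK, hk, hfK⟩ := hf L R hL hLR
  obtain ⟨n0, hn0⟩ := eventually_atTop.1 hw
  obtain ⟨B, hB, hblock⟩ := block hs0 hs1 hK
  have hpos : ∀ n, ∀ x, L ≤ x → x ≤ R → 0 < f n x := fun n x h1 h2 => ((hfK n).2 x x h1 le_rfl h2).1
  have hmono : ∀ n, ∀ x, L ≤ x → x ≤ R → f n L ≤ f n x := by
    intro n x h1 h2
    have h3 := ((hfK n).2 L x le_rfl h1 h2).2
    have h4 := hpos n L le_rfl hLR
    have h5 := hk n
    have h6 : 0 ≤ k n * f n L * (x - L) := by
      have : 0 ≤ x - L := by linarith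
      positivity
    nlinarith
  set Q : Set (ℕ × T) := {p | n0 ≤ p.1 ∧ p.2 ∈ S p.1 ∧ f p.1 L / 2 ≤ h p.2 ∧ h p.2 ≤ 3 / 2 * f p.1 R} with hQ
  set U : Q → Set ℝ := fun p => {x | L ≤ x ∧ x ≤ R ∧ |h p.1.2 - f p.1.1 x| ≤ w p.1.1} with hU
  set d : Q → ℝ := fun p => 4 * K * w p.1.1 / (k p.1.1 * h p.1.2) with hd
  have hh1 : ∀ p : Q, 1 ≤ h p.1.2 := by
    intro p
    have h1 := hn0 p.1.1 p.2.1
    have h2 := hw1 p.1.1
    linarith [p.2.2.2.1]
  have hdpos : ∀ p : Q, 0 < d p := by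
    intro p
    have h1 := hh1 p
    have h2 := hk p.1.1
    have h3 := hw1 p.1.1
    have : 0 < k p.1.1 * h p.1.2 := by positivity
    simp only [hd]
    positivity
  have hdiam : ∀ p : Q, Metric.ediam (U p) ≤ ENNReal.ofReal (d p) := by
    intro p
    have key : ∀ x ∈ U p, ∀ y ∈ U p, x ≤ y → y - x ≤ d p := by
      intro x hx y hy hxy
      obtain ⟨x1, x2, x3⟩ := hx
      obtain ⟨y1, y2, y3⟩ := hy
      have h1 := ((hfK p.1.1).2 x y x1 hxy y2).2
      have h2 := hn0 p.1.1 p.2.1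
      have h3 := hmono p.1.1 x x1 x2
      have h4 := (abs_le.1 x3)
      have h5 := (abs_le.1 y3)
      have h6 := hh1 p
      have h7 := hk p.1.1
      have h8 : h p.1.2 ≤ 2 * f p.1.1 x := by linarith
      have h9 : 0 < k p.1.1 * h p.1.2 := by positivity
      simp only [hd]
      rw [le_div_iff₀ h9]
      have h10 : K * (f p.1.1 y - f p.1.1 x) ≤ K * (2 * w p.1.1) :=
        mul_le_mul_of_nonneg_left (by linarith) hK.le
      have h11 : (y - x) * (k p.1.1 * h p.1.2) ≤ (y - x) * (k p.1.1 * (2 * f p.1.1 x)) := by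
        apply mul_le_mul_of_nonneg_left _ (by linarith)
        apply mul_le_mul_of_nonneg_left h8 (by linarith)
      nlinarith
    apply Metric.ediam_le
    intro x hx y hy
    rw [edist_dist]
    apply ENNReal.ofReal_le_ofReal
    rw [Real.dist_eq]
    rcases le_total x y with hle | hle
    · rw [abs_sub_comm, abs_of_nonneg (by linarith)]
      exact key x hx y hy hle
    · rw [abs_of_nonneg (by linarith)]
      exact key y hy x hx hle
  have hterm : ∀ p : Q, d p ^ s = (4 * K) ^ s * (w p.1.1 ^ s * (k p.1.1 ^ s)⁻¹) * (h p.1.2) ^ (-s) := by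
    intro p
    have h1 := hh1 p
    have h2 := hk p.1.1
    have h3 := hw1 p.1.1
    simp only [hd]
    rw [Real.div_rpow (by positivity) (by positivity),
      Real.mul_rpow (x := 4 * K) (y := w p.1.1) (by positivity) (by positivity),
      Real.mul_rpow (x := k p.1.1) (y := h p.1.2) (by positivity) (by positivity),
      Real.rpow_neg (by positivity)]
    field_simp
  have hgn : ∀ n, 0 ≤ q n * w n ^ s * (f n R) ^ (1 - s) := by
    intro n
    have h1 := hq n
    have h2 := hw1 n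
    have h3 := hpos n R hLR le_rfl
    positivity
  have hsumd : Summable fun p : Q => d p ^ s := by
    refine summable_of_sum_le (c := (4 * K) ^ s * B * (3 / 2) ^ (1 - s) *
      ∑' n, q n * w n ^ s * (f n R) ^ (1 - s)) (fun p => Real.rpow_nonneg (hdpos p).le _) fun F => ?_
    set F' : Finset (ℕ × T) := F.map ⟨Subtype.val, Subtype.val_injective⟩ with hF'
    have hF'Q : ∀ p ∈ F', p ∈ Q := by
      intro p hp
      rw [hF', Finset.mem_map] at hp
      obtain ⟨u, _, rfl⟩ := hp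
      exact u.2
    have e1 : ∑ p ∈ F, d p ^ s =
        ∑ p ∈ F', (4 * K) ^ s * (w p.1 ^ s * (k p.1 ^ s)⁻¹) * (h p.2) ^ (-s) := by
      rw [hF', Finset.sum_map]
      exact Finset.sum_congr rfl fun p _ => hterm p
    rw [e1, ← Finset.sum_fiberwise_of_maps_to (s := F') (t := F'.image Prod.fst)
      (fun p hp => Finset.mem_image_of_mem Prod.fst hp)]
    have hshell : ∀ n ∈ F'.image Prod.fst,
        ∑ p ∈ F'.filter (fun p => p.1 = n), (4 * K) ^ s * (w p.1 ^ s * (k p.1 ^ s)⁻¹) * (h p.2) ^ (-s) ≤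
        (4 * K) ^ s * B * (3 / 2) ^ (1 - s) * (q n * w n ^ s * (f n R) ^ (1 - s)) := by
      intro n hn
      have hnn0 : n0 ≤ n := by
        rw [Finset.mem_image] at hn
        obtain ⟨p, hp, rfl⟩ := hn
        exact (hF'Q p hp).1
      have hw2 := hn0 n hnn0
      have hw3 := hw1 n
      have hkn := hk n
      have hfR := hpos n R hLR le_rfl
      have hfLR := hmono n R hLR le_rfl
      have e2 : ∑ p ∈ F'.filter (fun p => p.1 = n),
          (4 * K) ^ s * (w p.1 ^ s * (k p.1 ^ s)⁻¹) * (h p.2) ^ (-s) =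
          (4 * K) ^ s * (w n ^ s * (k n ^ s)⁻¹) *
            ∑ t ∈ (F'.filter (fun p => p.1 = n)).image Prod.snd, (h t) ^ (-s) := by
        rw [Finset.sum_image, Finset.mul_sum]
        · refine Finset.sum_congr rfl fun p hp => ?_
          rw [Finset.mem_filter] at hp
          rw [hp.2]
        · intro p hp p' hp' hpp
          rw [Finset.mem_coe, Finset.mem_filter] at hp hp'
          exact Prod.ext (hp.2.trans hp'.2.symm) hpp
      rw [e2]
      have h3 := hblock T (S n) h (q n) (hq n) (hcount n) (f n L / 2) (3 / 2 * f n R) (k n)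
        (by linarith) (by linarith) hkn
        (by have := (hfK n).1
            calc 3 / 2 * f n R ≤ 3 / 2 * (Real.exp (K * k n) * f n L) := by linarith
              _ = 3 * Real.exp (K * k n) * (f n L / 2) := by ring)
        ((F'.filter (fun p => p.1 = n)).image Prod.snd) (by
          intro t ht
          rw [Finset.mem_image] at ht
          obtain ⟨p, hp, rfl⟩ := ht
          rw [Finset.mem_filter] at hp
          obtain ⟨h4, rfl⟩ := hp
          exact ⟨(hF'Q p h4).2.1, (hF'Q p h4).2.2.1, (hF'Q p h4).2.2.2⟩)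
      have hks : 0 < k n ^ s := by positivity
      calc (4 * K) ^ s * (w n ^ s * (k n ^ s)⁻¹) *
            ∑ t ∈ (F'.filter (fun p => p.1 = n)).image Prod.snd, (h t) ^ (-s)
          ≤ (4 * K) ^ s * (w n ^ s * (k n ^ s)⁻¹) *
            (B * q n * (3 / 2 * f n R) ^ (1 - s) * k n ^ s) :=
            mul_le_mul_of_nonneg_left h3 (by positivity)
        _ = (4 * K) ^ s * B * (3 / 2) ^ (1 - s) * (q n * w n ^ s * (f n R) ^ (1 - s)) := by
            rw [Real.mul_rpow (by norm_num) hfR.le]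
            field_simp
    calc ∑ n ∈ F'.image Prod.fst, ∑ p ∈ F'.filter (fun p => p.1 = n),
          (4 * K) ^ s * (w p.1 ^ s * (k p.1 ^ s)⁻¹) * (h p.2) ^ (-s)
        ≤ ∑ n ∈ F'.image Prod.fst,
          (4 * K) ^ s * B * (3 / 2) ^ (1 - s) * (q n * w n ^ s * (f n R) ^ (1 - s)) :=
          Finset.sum_le_sum hshell
      _ = (4 * K) ^ s * B * (3 / 2) ^ (1 - s) *
          ∑ n ∈ F'.image Prod.fst, q n * w n ^ s * (f n R) ^ (1 - s) := by rw [Finset.mul_sum]
      _ ≤ _ := by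
          apply mul_le_mul_of_nonneg_left _ (by positivity)
          exact hsum.sum_le_tsum _ fun n _ => hgn n
  have hnull := null_limsup U d hdpos hdiam hs0 hsumd
  refine measure_mono_null ?_ hnull
  rintro x ⟨hx1, hx2, hx3⟩
  rw [Set.mem_ofPred_eq]
  intro hfin
  have hfin2 := (hfin.image (fun p : Q => p.1.1)).bddAbove
  obtain ⟨N, hN⟩ := hfin2
  obtain ⟨n, hn, t, ht, hxt⟩ := frequently_atTop.1 hx3 (max n0 (N + 1))
  have hnn0 : n0 ≤ n := (le_max_left _ _).trans hn
  have h1 := hn0 n hnn0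
  have h2 := hmono n x hx1 hx2
  have h3 : f n x ≤ f n R := by
    have h4 := ((hfK n).2 x R hx1 hx2 le_rfl).2
    have h5 := hpos n x hx1 hx2
    have h6 := hk n
    have h7 : 0 ≤ k n * f n x * (R - x) := by
      have : 0 ≤ R - x := by linarith
      positivity
    nlinarith
  have h4 := abs_le.1 hxt
  have hmem : ((n, t) : ℕ × T) ∈ Q := ⟨hnn0, ht, by show f n L / 2 ≤ h t; linarith,
    by show h t ≤ 3 / 2 * f n R; linarith⟩
  have h5 : n ≤ N := hN ⟨⟨(n, t), hmem⟩, ⟨hx1, hx2, hxt⟩, rfl⟩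
  have h6 := (le_max_right _ _).trans hn
  omega

/-- **Windows without exceptions, in measure.** -/
theorem windows_null {T : Type} [Countable T] (S : ℕ → Set T) (h : T → ℝ) (q w : ℕ → ℝ)
    (hq : ∀ n, 0 ≤ q n)
    (hcount : ∀ n, ∀ X : ℝ, 1 ≤ X → {t | t ∈ S n ∧ h t ≤ X}.Finite ∧
      ({t | t ∈ S n ∧ h t ≤ X}.ncard : ℝ) ≤ q n * X)
    {a s : ℝ} {f : ℕ → ℝ → ℝ} (hf : Regular a f) (hw1 : ∀ n, 1 ≤ w n)
    (hs0 : 0 < s) (hs1 : s ≤ 1) (hw : ∀ x : ℝ, a < x → ∀ᶠ n in atTop, 2 * w n ≤ f n x)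
    (hsum : ∀ R : ℝ, a < R → Summable (fun n => q n * w n ^ s * (f n R) ^ (1 - s))) :
    Measure.hausdorffMeasure s
      {x : ℝ | a < x ∧ ∃ᶠ n in atTop, ∃ t ∈ S n, |h t - f n x| ≤ w n} = 0 := by
  have hsub : {x : ℝ | a < x ∧ ∃ᶠ n in atTop, ∃ t ∈ S n, |h t - f n x| ≤ w n} ⊆
      ⋃ N : ℕ, {x : ℝ | a + 1 / ((N : ℝ) + 1) ≤ x ∧ x ≤ a + 1 + N ∧
        ∃ᶠ n in atTop, ∃ t ∈ S n, |h t - f n x| ≤ w n} := by
    rintro x ⟨hx, hx2⟩
    obtain ⟨N, hN⟩ := exists_nat_ge (max (1 / (x - a)) (x - a))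
    have h1 := (le_max_left _ _).trans hN
    have h2 := (le_max_right _ _).trans hN
    have h3 : 0 < x - a := by linarith
    have hN0 : (0 : ℝ) ≤ N := Nat.cast_nonneg N
    rw [Set.mem_iUnion]
    refine ⟨N, ?_, by linarith, hx2⟩
    have h4 : 1 / ((N : ℝ) + 1) ≤ x - a := by
      rw [div_le_iff₀ (by positivity)]
      rw [div_le_iff₀ h3] at h1
      nlinarith
    linarith
  refine measure_mono_null hsub (measure_iUnion_null fun N => ?_)
  have hN0 : (0 : ℝ) ≤ N := Nat.cast_nonneg N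
  have h1 : (0 : ℝ) < 1 / ((N : ℝ) + 1) := by positivity
  have h2 : 1 / ((N : ℝ) + 1) ≤ 1 := by
    rw [div_le_one (by positivity)]
    linarith
  exact local_null S h q w hq hcount hf hw1 hs0 hs1 (by linarith) (by linarith)
    (hw _ (by linarith)) (hsum _ (by linarith))

/-- powers with coefficients -/
theorem regular_pow {c e : ℕ → ℝ} (hc : ∀ n, 0 < c n) (he : ∀ n, 1 ≤ e n) {a : ℝ} (ha : 0 ≤ a) :
    Regular a (fun n x => c n * x ^ e n) := by
  intro L R hL hLR
  have hL0 : 0 < L := by linarith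
  have hR0 : 0 < R := by linarith
  refine ⟨max R (Real.log (R / L)), e, lt_of_lt_of_le hR0 (le_max_left _ _), he, fun n => ⟨?_, ?_⟩⟩
  · have h1 : Real.log (R / L) * e n ≤ max R (Real.log (R / L)) * e n :=
      mul_le_mul_of_nonneg_right (le_max_right _ _) (by linarith [he n])
    have h2 : (R / L) ^ e n ≤ Real.exp (max R (Real.log (R / L)) * e n) := by
      rw [Real.rpow_def_of_pos (by positivity)]
      exact Real.exp_le_exp.2 h1
    have h3 : R ^ e n = (R / L) ^ e n * L ^ e n := by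
      rw [← Real.mul_rpow (by positivity) hL0.le, div_mul_cancel₀ _ hL0.ne']
    have h4 : 0 < L ^ e n := by positivity
    have h5 := hc n
    calc c n * R ^ e n = c n * ((R / L) ^ e n * L ^ e n) := by rw [h3]
      _ ≤ c n * (Real.exp (max R (Real.log (R / L)) * e n) * L ^ e n) := by gcongr
      _ = _ := by ring
  · intro x y hx hxy hy
    have hx0 : 0 < x := by linarith
    have hy0 : 0 < y := by linarith
    have h5 := hc n
    refine ⟨by positivity, ?_⟩
    -- Bernoulli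
    have h1 : 1 + e n * (y / x - 1) ≤ (1 + (y / x - 1)) ^ e n :=
      one_add_mul_self_le_rpow_one_add (by
        have : 0 < y / x := by positivity
        linarith) (he n)
    rw [add_sub_cancel] at h1
    have h2 : x ^ e n * (1 + e n * (y / x - 1)) ≤ y ^ e n := by
      calc x ^ e n * (1 + e n * (y / x - 1)) ≤ x ^ e n * (y / x) ^ e n :=
            mul_le_mul_of_nonneg_left h1 (by positivity)
        _ = y ^ e n := by
            rw [← Real.mul_rpow hx0.le (by positivity), mul_div_cancel₀ _ hx0.ne']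
    have h3 : e n * x ^ e n * (y - x) = x * (x ^ e n * (e n * (y / x - 1))) := by
      field_simp
    have h4 : e n * x ^ e n * (y - x) ≤ x * (y ^ e n - x ^ e n) := by
      rw [h3]
      apply mul_le_mul_of_nonneg_left _ hx0.le
      linarith
    have h6 : 0 ≤ y ^ e n - x ^ e n := by
      have := Real.rpow_le_rpow hx0.le hxy (by linarith [he n] : (0 : ℝ) ≤ e n)
      linarith
    have h7 : x * (y ^ e n - x ^ e n) ≤ max R (Real.log (R / L)) * (y ^ e n - x ^ e n) :=
      mul_le_mul_of_nonneg_right ((hxy.trans hy).trans (le_max_left _ _)) h6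
    calc e n * (c n * x ^ e n) * (y - x) = c n * (e n * x ^ e n * (y - x)) := by ring
      _ ≤ c n * (max R (Real.log (R / L)) * (y ^ e n - x ^ e n)) :=
          mul_le_mul_of_nonneg_left (h4.trans h7) h5.le
      _ = _ := by ring

end Pool.Agent.K6.H33.Met
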