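import Pool.Agent.Results.MP_d02c56_nt.TailExplicit
import Pool.Agent.K6.H33.Met

set_option autoImplicit false

/-!
# The Collatz map near the values `α b ^ n` and `α ^ n`: for almost every `α` all integers there descend
# to a power of `n`

For almost every real `α > 1`, for every `A` and all large `n`, the trajectory of EVERY integer `m` with
`||m| - α ^ n| ≤ n ^ A` has a term of absolute value at most `n ^ (17 (A + 1))`, a power of `log |m|`; the
same holds near `α b ^ n`, and near the values `f n α` of every sequence of regularly expanding functions,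
however fast it grows (near `α ^ (3 ^ n)` the trajectories fall below a power of `log log |m|`). In general,
if the windows have the length `w n` and the sum of `(w n) ^ s (f n R) ^ (1 - s) / (y n) ^ 0.06` converges
for all `R`, then the `α` for which infinitely often the trajectory of some integer in the window stays
above `y n` form a set of `s`-dimensional Hausdorff measure zero.

The tail bound `A X / y ^ 0.06` for the number of the integers up to `X` whose trajectory stays above `y`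
is the starting result `TailExplicit`.
-/

namespace Pool.Agent.Results.MP_d02c56_nt.MetricDescent

open Filter Topology MeasureTheory

/-- the Collatz map on the integers -/
def C (x : ℤ) : ℤ := if x % 2 = 0 then x / 2 else 3 * x + 1

/-- the trajectory of `x` has a term of absolute value at most `y` -/
def Falls (y : ℝ) (x : ℤ) : Prop := ∃ k : ℕ, |((C^[k] x : ℤ) : ℝ)| ≤ y

/-- The functions `f n` expand regularly on `(a, ∞)`: on every compact interval `[L, R]`, `L > a`, they are
positive, and for some `K > 0` and some numbers `k n ≥ 1` we have `f n R ≤ exp (K k n) f n L` and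
`K (f n y - f n x) ≥ k n f n x (y - x)` for `x ≤ y` in the interval. -/
def Regular (a : ℝ) (f : ℕ → ℝ → ℝ) : Prop :=
  ∀ L R : ℝ, a < L → L ≤ R → ∃ (K : ℝ) (k : ℕ → ℝ), 0 < K ∧ (∀ n, 1 ≤ k n) ∧ ∀ n : ℕ,
    f n R ≤ Real.exp (K * k n) * f n L ∧
    ∀ x y : ℝ, L ≤ x → x ≤ y → y ≤ R → 0 < f n x ∧ k n * f n x * (y - x) ≤ K * (f n y - f n x)

/-- For almost every `x > a`, for every `A ≥ 0` and all large `n`, the trajectories of all integers `m` with
`||m| - f n x| ≤ n ^ A` fall to `n ^ (17 (A + 1))` or below. -/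
def AllFall (a : ℝ) (f : ℕ → ℝ → ℝ) : Prop :=
  ∀ᵐ x : ℝ, a < x → ∀ A : ℝ, 0 ≤ A → ∀ᶠ n : ℕ in atTop, ∀ m : ℤ,
    |(|(m : ℝ)| - f n x)| ≤ (n : ℝ) ^ A → Falls ((n : ℝ) ^ (17 * (A + 1))) m

theorem general {a s : ℝ} {f : ℕ → ℝ → ℝ} {w y : ℕ → ℝ} (hf : Regular a f) (hw1 : ∀ n, 1 ≤ w n)
    (hy1 : ∀ n, 1 ≤ y n) (hs0 : 0 < s) (hs1 : s ≤ 1) (hw : ∀ x : ℝ, a < x → ∀ᶠ n in atTop, 2 * w n ≤ f n x)
    (hsum : ∀ R : ℝ, a < R → Summable (fun n => w n ^ s * (f n R) ^ (1 - s) / (y n) ^ (6 / 100 : ℝ))) :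
    Measure.hausdorffMeasure s {x : ℝ | a < x ∧ ∃ᶠ n in atTop, ∃ m : ℤ,
      |(|(m : ℝ)| - f n x)| ≤ w n ∧ ¬ Falls (y n) m} = 0 := by
  obtain ⟨A, hA, h⟩ := TailExplicit.result
  have hC : ∀ (k : ℕ) (x : ℤ), TailExplicit.C^[k] x = C^[k] x := fun k x => rfl
  have h1 := Pool.Agent.K6.H33.Met.windows_null (T := ℤ) (fun n => {m : ℤ | ¬ Falls (y n) m})
    (fun m => |(m : ℝ)|) (fun n => A / (y n) ^ (6 / 100 : ℝ)) w
    (fun n => by have := hy1 n; positivity) (fun n X hX => by
      have hfin : {t : ℤ | t ∈ {m : ℤ | ¬ Falls (y n) m} ∧ |(t : ℝ)| ≤ X}.Finite := by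
        apply (Set.finite_Icc (-⌈X⌉) ⌈X⌉).subset
        rintro x ⟨-, hx⟩
        have h1 := abs_le.1 hx
        have h2 := Int.le_ceil X
        rw [Set.mem_Icc]
        constructor
        · have : (-(⌈X⌉ : ℤ) : ℝ) ≤ x := by linarith
          exact_mod_cast this
        · have : (x : ℝ) ≤ (⌈X⌉ : ℤ) := by linarith
          exact_mod_cast this
      refine ⟨hfin, ?_⟩
      have h2 := (h X (y n) hX (hy1 n)).1
      unfold TailExplicit.count at h2
      have e : {t : ℤ | t ∈ {m : ℤ | ¬ Falls (y n) m} ∧ |(t : ℝ)| ≤ X} =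
          {x : ℤ | |(x : ℝ)| ≤ X ∧ ∀ k : ℕ, y n < |((TailExplicit.C^[k] x : ℤ) : ℝ)|} := by
        ext x
        simp only [Set.mem_ofPred_eq, Falls, not_exists, not_le, hC]
        exact and_comm
      rw [e]
      refine h2.trans (le_of_eq ?_)
      ring) hf hw1 hs0 hs1 hw (fun R hR => by
      refine ((hsum R hR).mul_left A).congr fun n => ?_
      ring)
  refine measure_mono_null ?_ h1
  rintro x ⟨hx1, hx2⟩
  refine ⟨hx1, hx2.mono ?_⟩
  rintro n ⟨m, hm1, hm2⟩
  exact ⟨m, hm2, hm1⟩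

/-- families whose values grow faster than every power of `n` -/
theorem families {a : ℝ} {c e : ℕ → ℝ} (ha : 0 ≤ a) (hc : ∀ n, 0 < c n) (he : ∀ n, 1 ≤ e n)
    (hgrow : ∀ x A : ℝ, a < x → Tendsto (fun n : ℕ => c n * x ^ e n / (n : ℝ) ^ A) atTop atTop) :
    AllFall a (fun n x => c n * x ^ e n) := by
  have key : ∀ A : ℚ, (0 : ℝ) ≤ A → ∀ᵐ x : ℝ, a < x → ∀ᶠ n : ℕ in atTop, ∀ m : ℤ,
      |(|(m : ℝ)| - c n * x ^ e n)| ≤ max 1 ((n : ℝ) ^ (A : ℝ)) →
        Falls (max 1 ((n : ℝ) ^ (169 / 10 * ((A : ℝ) + 1)))) m := by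
    intro A hA
    have h1 := general (a := a) (s := 1) (f := fun n x => c n * x ^ e n)
      (w := fun n : ℕ => max 1 ((n : ℝ) ^ (A : ℝ)))
      (y := fun n : ℕ => max 1 ((n : ℝ) ^ (169 / 10 * ((A : ℝ) + 1))))
      (Pool.Agent.K6.H33.Met.regular_pow hc he ha) (fun n => le_max_left _ _) (fun n => le_max_left _ _)
      one_pos le_rfl ?_ ?_
    · have e1 : (Measure.hausdorffMeasure 1 : Measure ℝ) = volume := MeasureTheory.hausdorffMeasure_real
      rw [e1] at h1
      rw [measure_eq_zero_iff_ae_notMem] at h1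
      filter_upwards [h1] with x hx hax
      have h2 : ¬ ∃ᶠ n : ℕ in atTop, ∃ m : ℤ, |(|(m : ℝ)| - c n * x ^ e n)| ≤ max 1 ((n : ℝ) ^ (A : ℝ)) ∧
          ¬ Falls (max 1 ((n : ℝ) ^ (169 / 10 * ((A : ℝ) + 1)))) m := fun h => hx ⟨hax, h⟩
      rw [not_frequently] at h2
      filter_upwards [h2] with n hn m hm
      by_contra hcon
      exact hn ⟨m, hm, hcon⟩
    · intro x hx
      have h2 := (hgrow x A hx).eventually_ge_atTop 2
      have h3 := (hgrow x 0 hx).eventually_ge_atTop 2
      filter_upwards [h2, h3, eventually_ge_atTop 1] with n h4 h5 h6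
      have hn : (0 : ℝ) < n := by exact_mod_cast h6
      rw [le_div_iff₀ (by positivity)] at h4
      rw [Real.rpow_zero, div_one] at h5
      rcases le_total 1 ((n : ℝ) ^ (A : ℝ)) with h7 | h7
      · simp only [max_eq_right h7]
        exact h4
      · simp only [max_eq_left h7]
        linarith
    · intro R hR
      have h2 : Summable (fun n : ℕ => (n : ℝ) ^ ((A : ℝ) - 169 / 10 * ((A : ℝ) + 1) * (6 / 100))) := by
        rw [Real.summable_nat_rpow]
        linarith
      refine Summable.congr_cofinite h2 ?_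
      rw [Nat.cofinite_eq_atTop]
      filter_upwards [eventually_ge_atTop 1] with n hn
      have hn1 : (1 : ℝ) ≤ n := by exact_mod_cast hn
      have hn0 : (0 : ℝ) < n := by linarith
      rw [max_eq_right (Real.one_le_rpow hn1 hA), max_eq_right (Real.one_le_rpow hn1 (by positivity)),
        sub_self, Real.rpow_zero, Real.rpow_one, mul_one, ← Real.rpow_mul hn0.le, Real.rpow_sub hn0]
  have key2 : ∀ᵐ x : ℝ, ∀ A : ℚ, (0 : ℝ) ≤ A → a < x → ∀ᶠ n : ℕ in atTop, ∀ m : ℤ,
      |(|(m : ℝ)| - c n * x ^ e n)| ≤ max 1 ((n : ℝ) ^ (A : ℝ)) →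
        Falls (max 1 ((n : ℝ) ^ (169 / 10 * ((A : ℝ) + 1)))) m := by
    rw [ae_all_iff]
    intro A
    by_cases hA : (0 : ℝ) ≤ A
    · filter_upwards [key A hA] with x hx _ hax using hx hax
    · exact Eventually.of_forall fun x h => absurd h hA
  unfold AllFall
  filter_upwards [key2] with x hx hax A hA
  obtain ⟨B, hB1, hB2⟩ := exists_rat_btwn (show A < A + (A + 1) / 200 by linarith)
  filter_upwards [hx B (by linarith) hax, eventually_ge_atTop 1] with n hn hn1 m hm
  have hn2 : (1 : ℝ) ≤ n := by exact_mod_cast hn1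
  obtain ⟨k, hk⟩ := hn m (hm.trans ((Real.rpow_le_rpow_of_exponent_le hn2 hB1.le).trans (le_max_right _ _)))
  refine ⟨k, hk.trans ?_⟩
  rw [max_eq_right (Real.one_le_rpow hn2 (by nlinarith))]
  exact Real.rpow_le_rpow_of_exponent_le hn2 (by nlinarith)

theorem exp_growth {r : ℝ} (hr : 0 < r) (A : ℝ) :
    Tendsto (fun n : ℕ => Real.exp (r * n) / (n : ℝ) ^ A) atTop atTop :=
  (tendsto_exp_mul_div_rpow_atTop A r hr).comp tendsto_natCast_atTop_atTop

/-- **Metric descent.** (1) Let `f` be regular on `(a, ∞)`, `w n ≥ 1`, `y n ≥ 1`, `2 w n ≤ f n x` for every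
`x > a` and all large `n`, and let `0 < s ≤ 1` be such that the sum of
`(w n) ^ s (f n R) ^ (1 - s) / (y n) ^ 0.06` converges for all `R > a`. Then the `x > a` for which, for
infinitely many `n`, some integer `m` with `||m| - f n x| ≤ w n` has a trajectory all of whose terms are
larger than `y n` in absolute value, form a set of `s`-dimensional Hausdorff measure zero.
(2) Let `f n x = c n x ^ (e n)`, `c n > 0`, `e n ≥ 1`, and suppose that `f n x / n ^ A` tends to infinity for
all `A` and `x > a ≥ 0`. Then for almost every `x > a`, for all `A ≥ 0` and all large `n`, the trajectories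
of all integers `m` with `||m| - f n x| ≤ n ^ A` reach a term of absolute value at most `n ^ (17 (A + 1))`.
(3) This applies to `f n x = b ^ n x` for `b > 1`, `x > 0`, and to `f n x = x ^ (e n)`, `x > 1`, for all
`e n ≥ n`, `e n ≥ 1`. -/
theorem result :
    (∀ (a s : ℝ) (f : ℕ → ℝ → ℝ) (w y : ℕ → ℝ), Regular a f → (∀ n, 1 ≤ w n) → (∀ n, 1 ≤ y n) →
      0 < s → s ≤ 1 → (∀ x : ℝ, a < x → ∀ᶠ n in atTop, 2 * w n ≤ f n x) →
      (∀ R : ℝ, a < R → Summable (fun n => w n ^ s * (f n R) ^ (1 - s) / (y n) ^ (6 / 100 : ℝ))) →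
      Measure.hausdorffMeasure s {x : ℝ | a < x ∧ ∃ᶠ n in atTop, ∃ m : ℤ,
        |(|(m : ℝ)| - f n x)| ≤ w n ∧ ¬ Falls (y n) m} = 0) ∧
    (∀ (a : ℝ) (c e : ℕ → ℝ), 0 ≤ a → (∀ n, 0 < c n) → (∀ n, 1 ≤ e n) →
      (∀ x A : ℝ, a < x → Tendsto (fun n : ℕ => c n * x ^ e n / (n : ℝ) ^ A) atTop atTop) →
      AllFall a (fun n x => c n * x ^ e n)) ∧
    (∀ b : ℝ, 1 < b → AllFall 0 (fun n x => b ^ n * x)) ∧
    ∀ e : ℕ → ℝ, (∀ n, 1 ≤ e n) → (∀ n : ℕ, (n : ℝ) ≤ e n) → AllFall 1 (fun n x => x ^ e n) := by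
  refine ⟨fun a s f w y hf h1 h2 h3 h4 h5 h6 => general hf h1 h2 h3 h4 h5 h6,
    fun a c e ha hc he h => families ha hc he h, fun b hb => ?_, fun e he he2 => ?_⟩
  · have h := families (a := 0) (c := fun n => b ^ n) (e := fun _ => 1) le_rfl
      (fun n => by positivity) (fun _ => le_rfl) (fun x A hx => by
        have h1 := (exp_growth (Real.log_pos hb) A).const_mul_atTop hx
        refine h1.congr fun n => ?_
        rw [Real.rpow_one, mul_comm (Real.log b), Real.exp_nat_mul, Real.exp_log (by linarith)]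
        ring)
    simpa only [Real.rpow_one] using h
  · have h := families (a := 1) (c := fun _ => 1) (e := e) zero_le_one (fun _ => one_pos) he
      (fun x A hx => by
        have h1 := exp_growth (Real.log_pos hx) A
        refine tendsto_atTop_mono' _ ?_ h1
        filter_upwards [eventually_ge_atTop 1] with n hn
        have hn0 : (0 : ℝ) < n := by exact_mod_cast hn
        rw [one_mul]
        apply div_le_div_of_nonneg_right _ (by positivity)
        rw [Real.rpow_def_of_pos (by linarith)]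
        apply Real.exp_le_exp.2
        exact mul_le_mul_of_nonneg_left (he2 n) (Real.log_pos hx).le)
    simpa only [one_mul] using h

end Pool.Agent.Results.MP_d02c56_nt.MetricDescent
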