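import Pool.Agent.K6.H33.NegOrb

/-!
# The finitely many exceptional parameters of `x ^ (-d) + c`, and Northcott's theorem
-/

set_option autoImplicit false

namespace Pool.Agent.K6.H33.Neg

open Finset Pool.Agent.T6.H62.PP Pool.Agent.T6.H62.PP.G

variable {d : ℕ} {c : ℚ}

/-- the finite set of the ratios in `FIN` -/
def FF (d : ℕ) : Set ℚ := {t : ℚ | ∃ X U : ℤ, F3 d X U ∧ t = (X : ℚ) / (U : ℚ)}

/-- the finite set of the ratios in `FIN'` -/
def FF' (d : ℕ) : Set ℚ := {t : ℚ | ∃ X U : ℤ, F3' d X U ∧ t = (X : ℚ) / (U : ℚ)}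

theorem FF_fin (hde : Even d) (hd : 4 ≤ d) : (FF d).Finite := (fin_of sel gfin).1 d hde hd

theorem FF'_fin (hde : Even d) (hd : 6 ≤ d) : (FF' d).Finite := (fin_of sel gfin).2 d hde hd

/-- finitely many roots -/
theorem roots_fin {n : ℕ} (hn : 0 < n) (a : ℚ) : {y : ℚ | y ^ n = a}.Finite := by
  classical
  refine Set.Finite.subset (Polynomial.nthRoots n a).toFinset.finite_toSet fun y hy => ?_
  simp only [Finset.mem_coe, Multiset.mem_toFinset]
  rwa [Polynomial.mem_nthRoots hn]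

/-- parameters with a cycle of length at least two -/
def Cyc (d : ℕ) : Set ℚ := {c : ℚ | ∃ t ∈ FF' d, ∃ t' ∈ FF' d, ∃ r : ℚ, t ≠ 0 ∧ t' ≠ 0 ∧ t' ≠ 1 ∧
  r ≠ 0 ∧ r = ((t * r) ^ d)⁻¹ + c ∧ r / t' = (r ^ d)⁻¹ + c}

theorem cyc_fin (hde : Even d) (hd : 6 ≤ d) : (Cyc d).Finite := by
  have h1 := (FF'_fin hde hd).prod (FF'_fin hde hd)
  refine Set.Finite.subset (h1.biUnion (t := fun q : ℚ × ℚ =>
    (fun y : ℚ => y / q.2 - (y ^ d)⁻¹) '' {y : ℚ | y ^ (d + 1) =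
      ((q.1 ^ d)⁻¹ - 1) / (1 - q.2⁻¹)}) (fun q _ => (roots_fin (by omega) _).image _)) ?_
  rintro c ⟨t, ht, t', ht', r, ht0, ht0', ht1', hr, e1, e2⟩
  rw [Set.mem_iUnion₂]
  refine ⟨(t, t'), ⟨ht, ht'⟩, r, ?_, ?_⟩
  · have h2 : (1 : ℚ) - t'⁻¹ ≠ 0 := by
      intro h0
      apply ht1'
      have h3 : t'⁻¹ = 1 := by linarith
      exact inv_eq_one.1 h3
    show r ^ (d + 1) = ((t ^ d)⁻¹ - 1) / (1 - t'⁻¹)
    rw [eq_div_iff h2]
    have h4 : r - r / t' = (r ^ d)⁻¹ * ((t ^ d)⁻¹ - 1) := by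
      have e3 : ((t * r) ^ d)⁻¹ = (r ^ d)⁻¹ * (t ^ d)⁻¹ := by rw [mul_pow, mul_inv, mul_comm]
      rw [e3] at e1
      linear_combination e1 - e2
    have hrd : r ^ d ≠ 0 := pow_ne_zero _ hr
    calc r ^ (d + 1) * (1 - t'⁻¹) = r ^ d * (r - r / t') := by ring
      _ = (t ^ d)⁻¹ - 1 := by rw [h4, ← mul_assoc, mul_inv_cancel₀ hrd, one_mul]
  · show r / t' - (r ^ d)⁻¹ = c
    linear_combination e2

/-- two fixed points -/
def Fix2 (d : ℕ) : Set ℚ := {c : ℚ | ∃ z z' : ℚ, z ≠ z' ∧ z ≠ 0 ∧ z' ≠ 0 ∧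
  (z ^ d)⁻¹ + c = z ∧ (z' ^ d)⁻¹ + c = z'}

/-- a fixed point `z` and a preimage of `- z` -/
def Tail (d : ℕ) : Set ℚ := {c : ℚ | ∃ z x : ℚ, z ≠ 0 ∧ x ≠ 0 ∧
  (z ^ d)⁻¹ + c = z ∧ (x ^ d)⁻¹ + c = -z}

/-- a fixed point `z` with `c = - z` -/
def Inf (d : ℕ) : Set ℚ := {c : ℚ | ∃ z : ℚ, z ≠ 0 ∧ (z ^ d)⁻¹ + c = z ∧ c = -z}

theorem inf_fin : (Inf d).Finite := by
  refine Set.Finite.subset ((roots_fin (show 0 < d + 1 by omega) (1 / 2)).image (fun z => -z)) ?_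
  rintro c ⟨z, hz, h1, h2⟩
  refine ⟨z, ?_, h2.symm⟩
  show z ^ (d + 1) = 1 / 2
  rw [h2] at h1
  have h3 : (z ^ d)⁻¹ = 2 * z := by linear_combination h1
  have hzd : z ^ d ≠ 0 := pow_ne_zero _ hz
  have h4 : 1 = 2 * z * z ^ d := by rw [← h3, inv_mul_cancel₀ hzd]
  rw [pow_succ]
  linarith

/-- the primes dividing `X ^ d - U ^ d`, and `X` or `U` -/
theorem not_dvd_of {q : ℕ} (hq : q.Prime) (hd : 0 < d) {X U : ℤ} (hXU : IsCoprime X U)
    (h : (q : ℤ) ∣ X ^ d - U ^ d) : ¬ (q : ℤ) ∣ X ∧ ¬ (q : ℤ) ∣ U := by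
  have hqi : Prime (q : ℤ) := Nat.prime_iff_prime_int.1 hq
  constructor
  · intro h1
    have h2 : (q : ℤ) ∣ U ^ d := by
      have h3 : U ^ d = X ^ d - (X ^ d - U ^ d) := by ring
      rw [h3]
      exact dvd_sub (dvd_pow h1 hd.ne') h
    exact hqi.not_isUnit (hXU.isUnit_of_dvd' h1 (hqi.dvd_of_dvd_pow h2))
  · intro h1
    have h2 : (q : ℤ) ∣ X ^ d := by
      have h3 : X ^ d = U ^ d + (X ^ d - U ^ d) := by ring
      rw [h3]
      exact dvd_add (dvd_pow h1 hd.ne') h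
    exact hqi.not_isUnit (hXU.isUnit_of_dvd' (hqi.dvd_of_dvd_pow h2) h1)

theorem tail_fin (hde : Even d) (hd : 4 ≤ d) (h3 : 3 ∣ d + 1) : (Tail d).Finite := by
  refine Set.Finite.subset ((FF_fin hde hd).biUnion (t := fun t : ℚ =>
    (fun z : ℚ => z - (z ^ d)⁻¹) '' {z : ℚ | z ^ (d + 1) =
      (t ^ d - 1) / (2 * t ^ d)}) (fun q _ => (roots_fin (by omega) _).image _)) ?_
  rintro c ⟨z, x, hz, hx, e1, e2⟩
  rw [Set.mem_iUnion₂]
  have ht0 : x / z ≠ 0 := div_ne_zero hx hz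
  have hzd : z ^ d ≠ 0 := pow_ne_zero _ hz
  have hxd : x ^ d ≠ 0 := pow_ne_zero _ hx
  have key : 2 * z ^ (d + 1) * (x / z) ^ d = (x / z) ^ d - 1 := by
    have h1 : (x ^ d)⁻¹ - (z ^ d)⁻¹ = -2 * z := by linear_combination e2 - e1
    have h2 : z ^ d - x ^ d = -2 * z * (x ^ d * z ^ d) := by
      rw [← h1]; field_simp
    rw [div_pow, pow_succ]
    field_simp
    linear_combination h2
  refine ⟨x / z, ?_, z, ?_, ?_⟩
  swap
  · show z ^ (d + 1) = _
    rw [eq_div_iff (mul_ne_zero two_ne_zero (pow_ne_zero _ ht0)), ← key]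
    ring
  swap
  · show z - (z ^ d)⁻¹ = c
    linear_combination -e1
  set t := x / z with ht
  have hUQ : (t.den : ℚ) ≠ 0 := by exact_mod_cast t.den_nz
  have hβQ : (z.den : ℚ) ≠ 0 := by exact_mod_cast z.den_nz
  refine ⟨t.num, t.den, ?_, by rw [Int.cast_natCast, Rat.num_div_den]⟩
  have hcop : IsCoprime t.num (t.den : ℤ) := by
    rw [Int.isCoprime_iff_gcd_eq_one]; exact t.reduced
  -- the integral equation
  have e3 : 2 * z.num ^ (d + 1) * t.num ^ d =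
      (z.den : ℤ) ^ (d + 1) * (t.num ^ d - (t.den : ℤ) ^ d) := by
    have h1 : 2 * ((z.num : ℚ) / z.den) ^ (d + 1) * ((t.num : ℚ) / t.den) ^ d =
        ((t.num : ℚ) / t.den) ^ d - 1 := by
      rw [Rat.num_div_den, Rat.num_div_den]; exact key
    rw [div_pow, div_pow] at h1
    have h2 : 2 * (z.num : ℚ) ^ (d + 1) * (t.num : ℚ) ^ d =
        (z.den : ℚ) ^ (d + 1) * ((t.num : ℚ) ^ d - (t.den : ℚ) ^ d) := by
      field_simp at h1
      linear_combination h1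
    exact_mod_cast h2
  have hαz : z.num ≠ 0 := Rat.num_ne_zero.2 hz
  have htn : t.num ≠ 0 := Rat.num_ne_zero.2 ht0
  have hβz : (z.den : ℤ) ≠ 0 := by exact_mod_cast z.den_nz
  have hne : t.num ^ d - (t.den : ℤ) ^ d ≠ 0 := by
    intro h0
    rw [h0, mul_zero] at e3
    exact mul_ne_zero (mul_ne_zero two_ne_zero (pow_ne_zero _ hαz)) (pow_ne_zero _ htn) e3
  refine ⟨by exact_mod_cast t.den_nz, sub_ne_zero.1 hne, ?_⟩
  intro q hq hqd
  have := Fact.mk hq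
  have hqi : Prime (q : ℤ) := Nat.prime_iff_prime_int.1 hq
  refine ⟨fun h1 => hqi.not_isUnit (hcop.isUnit_of_dvd' h1.1 h1.2), ?_⟩
  by_cases hqX : (q : ℤ) ∣ t.num ^ d - (t.den : ℤ) ^ d
  · have hq2 : ¬ (q : ℤ) ∣ 2 := by
      intro h4
      have h5 : q ∣ 2 := by exact_mod_cast h4
      exact hqd (h5.trans hde.two_dvd)
    obtain ⟨h1, -⟩ := not_dvd_of hq (by omega) hcop hqX
    have h4 := congrArg (padicValInt q) e3
    have hvpow : ∀ (a : ℤ) (n : ℕ), padicValInt q (a ^ n) = n * padicValInt q a := by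
      intro a n
      simp only [padicValInt, Int.natAbs_pow, padicValNat.pow]
    rw [padicValInt.mul (mul_ne_zero two_ne_zero (pow_ne_zero _ hαz)) (pow_ne_zero _ htn),
      padicValInt.mul two_ne_zero (pow_ne_zero _ hαz), padicValInt.mul (pow_ne_zero _ hβz) hne,
      hvpow, hvpow, hvpow, padicValInt.eq_zero_of_not_dvd hq2, padicValInt.eq_zero_of_not_dvd h1,
      mul_zero, zero_add, add_zero] at h4
    obtain ⟨k, hk⟩ := h3
    have h5 : 3 ∣ (d + 1) * padicValInt q z.den := by rw [hk, mul_assoc]; exact dvd_mul_right _ _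
    have h6 : 3 ∣ (d + 1) * padicValInt q z.den +
        padicValInt q (t.num ^ d - (t.den : ℤ) ^ d) := by
      rw [← h4, hk, mul_assoc]; exact dvd_mul_right _ _
    exact (Nat.dvd_add_right h5).1 h6
  · rw [padicValInt.eq_zero_of_not_dvd hqX]; exact dvd_zero _

theorem fix2_fin (hde : Even d) (hd : 6 ≤ d) (h3 : 3 ∣ d + 1) : (Fix2 d).Finite := by
  refine Set.Finite.subset ((FF'_fin hde hd).biUnion (t := fun t : ℚ =>
    (fun z : ℚ => z - (z ^ d)⁻¹) '' {z : ℚ | z ^ (d + 1) =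
      (1 - t ^ d) / ((t - 1) * t ^ d)}) (fun q _ => (roots_fin (by omega) _).image _)) ?_
  rintro c ⟨z', z, hne, hz', hz, e2, e1⟩
  rw [Set.mem_iUnion₂]
  have ht0 : z' / z ≠ 0 := div_ne_zero hz' hz
  have hzd : z ^ d ≠ 0 := pow_ne_zero _ hz
  have hzd' : z' ^ d ≠ 0 := pow_ne_zero _ hz'
  have ht1 : z' / z ≠ 1 := by
    intro h0
    rw [div_eq_one_iff_eq hz] at h0
    exact hne h0
  have key : z ^ (d + 1) * ((z' / z - 1) * (z' / z) ^ d) = 1 - (z' / z) ^ d := by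
    have h1 : (z' ^ d)⁻¹ - (z ^ d)⁻¹ = z' - z := by linear_combination e2 - e1
    have h2 : z ^ d - z' ^ d = (z' - z) * (z' ^ d * z ^ d) := by
      rw [← h1]; field_simp
    rw [div_pow, pow_succ]
    field_simp
    linear_combination -h2
  refine ⟨z' / z, ?_, z, ?_, ?_⟩
  swap
  · show z ^ (d + 1) = _
    rw [eq_div_iff (mul_ne_zero (sub_ne_zero.2 ht1) (pow_ne_zero _ ht0)), key]
  swap
  · show z - (z ^ d)⁻¹ = c
    linear_combination -e1
  set t := z' / z with ht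
  have hUQ : (t.den : ℚ) ≠ 0 := by exact_mod_cast t.den_nz
  have hβQ : (z.den : ℚ) ≠ 0 := by exact_mod_cast z.den_nz
  refine ⟨t.num, t.den, ?_, by rw [Int.cast_natCast, Rat.num_div_den]⟩
  have hcop : IsCoprime t.num (t.den : ℤ) := by
    rw [Int.isCoprime_iff_gcd_eq_one]; exact t.reduced
  have hXU : t.num - (t.den : ℤ) ≠ 0 := by
    intro h0
    apply ht1
    rw [← Rat.num_div_den t, sub_eq_zero.1 h0, Int.cast_natCast, div_self hUQ]
  -- the integral equation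
  have e3 : z.num ^ (d + 1) * t.num ^ d =
      -((z.den : ℤ) ^ (d + 1) * ((t.den : ℤ) * Psi d t.num t.den)) := by
    have h1 : ((z.num : ℚ) / z.den) ^ (d + 1) * (((t.num : ℚ) / t.den - 1) *
        ((t.num : ℚ) / t.den) ^ d) = 1 - ((t.num : ℚ) / t.den) ^ d := by
      rw [Rat.num_div_den, Rat.num_div_den]; exact key
    rw [div_pow, div_pow] at h1
    have h2 : (z.num : ℚ) ^ (d + 1) * ((t.num : ℚ) - t.den) * (t.num : ℚ) ^ d =
        (z.den : ℚ) ^ (d + 1) * (t.den * ((t.den : ℚ) ^ d - (t.num : ℚ) ^ d)) := by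
      field_simp at h1
      linear_combination h1
    have h4 : (z.num : ℤ) ^ (d + 1) * (t.num - t.den) * t.num ^ d =
        (z.den : ℤ) ^ (d + 1) * (t.den * ((t.den : ℤ) ^ d - t.num ^ d)) := by exact_mod_cast h2
    apply mul_left_cancel₀ hXU
    have h5 := psi_mul d t.num (t.den : ℤ)
    linear_combination h4 + (z.den : ℤ) ^ (d + 1) * t.den * h5
  have hαz : z.num ≠ 0 := Rat.num_ne_zero.2 hz
  have htn : t.num ≠ 0 := Rat.num_ne_zero.2 ht0
  have hβz : (z.den : ℤ) ≠ 0 := by exact_mod_cast z.den_nz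
  have hUz : (t.den : ℤ) ≠ 0 := by exact_mod_cast t.den_nz
  have hPsi : Psi d t.num t.den ≠ 0 := by
    intro h0
    rw [h0, mul_zero, mul_zero, neg_zero] at e3
    exact mul_ne_zero (pow_ne_zero _ hαz) (pow_ne_zero _ htn) e3
  have hpow : t.num ^ d ≠ (t.den : ℤ) ^ d := by
    intro h0
    have h5 := psi_mul d t.num (t.den : ℤ)
    rw [h0, sub_self] at h5
    exact mul_ne_zero hXU hPsi h5
  refine ⟨hUz, hpow, ?_⟩
  intro q hq hqd
  have := Fact.mk hq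
  have hqi : Prime (q : ℤ) := Nat.prime_iff_prime_int.1 hq
  refine ⟨fun h1 => hqi.not_isUnit (hcop.isUnit_of_dvd' h1.1 h1.2), ?_⟩
  by_cases hqX : (q : ℤ) ∣ Psi d t.num t.den
  · have hqX' : (q : ℤ) ∣ t.num ^ d - (t.den : ℤ) ^ d := by
      rw [← psi_mul]; exact Dvd.dvd.mul_left hqX _
    obtain ⟨h1, h2⟩ := not_dvd_of hq (by omega) hcop hqX'
    have h4 := congrArg (padicValInt q) e3
    have hvpow : ∀ (a : ℤ) (n : ℕ), padicValInt q (a ^ n) = n * padicValInt q a := by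
      intro a n
      simp only [padicValInt, Int.natAbs_pow, padicValNat.pow]
    have hvneg : ∀ a : ℤ, padicValInt q (-a) = padicValInt q a := by
      intro a
      simp only [padicValInt, Int.natAbs_neg]
    rw [hvneg, padicValInt.mul (pow_ne_zero _ hαz) (pow_ne_zero _ htn),
      padicValInt.mul (pow_ne_zero _ hβz) (mul_ne_zero hUz hPsi), padicValInt.mul hUz hPsi,
      hvpow, hvpow, hvpow, padicValInt.eq_zero_of_not_dvd h1, padicValInt.eq_zero_of_not_dvd h2,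
      mul_zero, add_zero, zero_add] at h4
    obtain ⟨k, hk⟩ := h3
    have h5 : 3 ∣ (d + 1) * padicValInt q z.den := by rw [hk, mul_assoc]; exact dvd_mul_right _ _
    have h6 : 3 ∣ (d + 1) * padicValInt q z.den + padicValInt q (Psi d t.num t.den) := by
      rw [← h4, hk, mul_assoc]; exact dvd_mul_right _ _
    exact (Nat.dvd_add_right h5).1 h6
  · rw [padicValInt.eq_zero_of_not_dvd hqX]; exact dvd_zero _

end Pool.Agent.K6.H33.Neg
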