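import Pool.Agent.K6.H33.NegFin

/-!
# The maps `x ^ (-d) + c`, `d ≡ 2 mod 6`, `d ≥ 8`: the main theorem
-/

set_option autoImplicit false

namespace Pool.Agent.K6.H33.Neg

open Finset Pool.Agent.T6.H62.PP Pool.Agent.T6.H62.PP.G

variable {d : ℕ} {c : ℚ}

/-- the finite forward orbit -/
def Prep (d : ℕ) (c : ℚ) (x : Option ℚ) : Prop :=
  ∃ m n : ℕ, m < n ∧ (nmap d c)^[m] x = (nmap d c)^[n] x

/-- the exceptional parameters -/
def Exc (d : ℕ) : Set ℚ :=
  Cyc d ∪ Fix2 d ∪ Tail d ∪ Inf d ∪ (fun n : ℤ => (n : ℚ)) '' ((Icc (-2) 2 : Finset ℤ) : Set ℤ)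

theorem exc_fin (hde : Even d) (hd : 6 ≤ d) (h3 : 3 ∣ d + 1) : (Exc d).Finite :=
  ((((cyc_fin hde hd).union (fix2_fin hde hd h3)).union (tail_fin hde (by omega) h3)).union
    inf_fin).union ((Finset.finite_toSet _).image _)

/-- Outside of the exceptional parameters all periodic points are fixed. -/
theorem all_fixed (hde : Even d) (hd : 6 ≤ d) (h3 : 3 ∣ d + 1) (hc : c ∉ Exc d) {x : Option ℚ}
    {N : ℕ} (hN : 0 < N) (hper : (nmap d c)^[N] x = x) : nmap d c x = x := by
  by_contra hnf
  apply hc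
  by_cases hden : c.den = 1
  · right
    have h1 := int_case (by omega) hde hden hN hper hnf
    rw [abs_le] at h1
    exact ⟨c.num, by rw [Finset.mem_coe, mem_Icc]; exact h1, Rat.coe_int_num_of_den_eq_one hden⟩
  · left; left; left; left
    obtain ⟨r, hr, hr0, hne, hF⟩ := ratio_case (by omega) hde h3 hden (F := FF' d)
      (fun X U h => ⟨X, U, h, rfl⟩) hN hper hnf
    have hstep : ∀ n, r (n + 1) = (r n ^ d)⁻¹ + c := by
      intro n
      have h1 := hr (n + 1)
      rw [Function.iterate_succ_apply', hr n, nmap_some (hr0 n)] at h1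
      exact (Option.some.inj h1).symm
    refine ⟨r 0 / r 1, hF 0, r 1 / r 2, hF 1, r 1, div_ne_zero (hr0 0) (hr0 1),
      div_ne_zero (hr0 1) (hr0 2), ?_, hr0 1, ?_, ?_⟩
    · intro h0
      rw [div_eq_one_iff_eq (hr0 2)] at h0
      exact hne 1 h0
    · rw [div_mul_cancel₀ _ (hr0 1)]
      exact hstep 0
    · rw [div_div_cancel₀ (hr0 1)]
      exact hstep 1

theorem pair_le {α : Type*} (a b : α) : ({a, b} : Set α).encard ≤ 2 := by
  refine (Set.encard_insert_le _ _).trans ?_
  rw [Set.encard_singleton]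
  norm_num

/-- fixed points -/
theorem fixed_iff {x : Option ℚ} (h : nmap d c x = x) :
    ∃ z : ℚ, x = some z ∧ z ≠ 0 ∧ (z ^ d)⁻¹ + c = z := by
  rcases x with _ | z
  · rw [nmap_none] at h
    exact absurd h (by simp)
  · by_cases hz : z = 0
    · subst hz
      rw [nmap_zero] at h
      exact absurd h (by simp)
    · rw [nmap_some hz] at h
      exact ⟨z, rfl, hz, Option.some.inj h⟩

/-- The points which run into the fixed point `z`. -/
theorem preimages (hde : Even d) (hd : 0 < d) (hc : c ∉ Exc d) {z : ℚ} (hz : z ≠ 0)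
    (hfix : (z ^ d)⁻¹ + c = z) (m : ℕ) : ∀ x : Option ℚ, (nmap d c)^[m] x = some z →
      x = some z ∨ x = some (-z) := by
  induction m with
  | zero => intro x hx; exact Or.inl hx
  | succ m ih =>
    intro x hx
    rw [Function.iterate_succ_apply] at hx
    rcases ih _ hx with h1 | h1
    · rcases x with _ | r
      · rw [nmap_none] at h1
        have h2 := Option.some.inj h1
        rw [h2] at hfix
        have h3 : (z ^ d)⁻¹ = 0 := by linarith
        exact absurd h3 (inv_ne_zero (pow_ne_zero _ hz))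
      · by_cases hr : r = 0
        · subst hr
          rw [nmap_zero] at h1
          exact absurd h1 (by simp)
        · rw [nmap_some hr] at h1
          have h2 := Option.some.inj h1
          have h3 : (r ^ d)⁻¹ = (z ^ d)⁻¹ := by linarith
          have h4 : r ^ d = z ^ d := inv_injective h3
          have h5 : |r| = |z| := by
            have h6 : |r| ^ d = |z| ^ d := by rw [hde.pow_abs, hde.pow_abs, h4]
            exact (pow_left_inj₀ (abs_nonneg _) (abs_nonneg _) hd.ne').1 h6
          rcases abs_eq_abs.1 h5 with h6 | h6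
          · exact Or.inl (by rw [h6])
          · exact Or.inr (by rw [h6])
    · exfalso
      apply hc
      rcases x with _ | r
      · rw [nmap_none] at h1
        exact Or.inl (Or.inr ⟨z, hz, hfix, Option.some.inj h1⟩)
      · by_cases hr : r = 0
        · subst hr
          rw [nmap_zero] at h1
          exact absurd h1 (by simp)
        · rw [nmap_some hr] at h1
          exact Or.inl (Or.inl (Or.inr ⟨z, r, hz, hr, hfix, Option.some.inj h1⟩))

/-- **At most two preperiodic points outside of the exceptional parameters.** -/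
theorem two (hde : Even d) (hd : 6 ≤ d) (h3 : 3 ∣ d + 1) (hc : c ∉ Exc d) :
    ∃ z : ℚ, ∀ x : Option ℚ, Prep d c x → x = some z ∨ x = some (-z) := by
  have key : ∀ x : Option ℚ, Prep d c x → ∃ (m : ℕ) (z : ℚ), z ≠ 0 ∧ (z ^ d)⁻¹ + c = z ∧
      (nmap d c)^[m] x = some z := by
    rintro x ⟨m, n, hmn, heq⟩
    have hper : (nmap d c)^[n - m] ((nmap d c)^[m] x) = (nmap d c)^[m] x := by
      rw [← Function.iterate_add_apply, Nat.sub_add_cancel hmn.le, heq]
    obtain ⟨z, h1, h2, h4⟩ := fixed_iff (all_fixed hde hd h3 hc (by omega) hper)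
    exact ⟨m, z, h2, h4, h1⟩
  by_cases hex : ∃ x : Option ℚ, Prep d c x
  · obtain ⟨x0, hx0⟩ := hex
    obtain ⟨-, z, hz, hfix, -⟩ := key x0 hx0
    refine ⟨z, fun x hx => ?_⟩
    obtain ⟨m, z', hz', hfix', hm⟩ := key x hx
    have : z' = z := by
      by_contra hne
      exact hc (Or.inl (Or.inl (Or.inl (Or.inr ⟨z', z, hne, hz', hz, hfix', hfix⟩))))
    subst this
    exact preimages hde (by omega) hc hz hfix m x hm
  · exact ⟨0, fun x hx => absurd ⟨x, hx⟩ hex⟩

/-! ### Northcott -/

/-- the height -/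
def ht : Option ℚ → ℕ
  | none => 1
  | some r => max r.num.natAbs r.den

theorem ht_step (c : ℚ) (d : ℕ) : ∃ K : ℕ, 1 ≤ K ∧ ∀ r : ℚ, r ≠ 0 →
    ht (some r) ^ d ≤ K * ht (some ((r ^ d)⁻¹ + c)) := by
  refine ⟨c.den ^ 2 * (1 + c.num.natAbs), Nat.one_le_iff_ne_zero.2
    (mul_ne_zero (pow_ne_zero _ c.den_nz) (by omega)), ?_⟩
  intro r hr
  set u := r.num with hu
  set w : ℤ := (r.den : ℤ) with hw
  set C := c.num with hC
  set e : ℤ := (c.den : ℤ) with he
  have hu0 : u ≠ 0 := Rat.num_ne_zero.2 hr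
  have he0 : e ≠ 0 := by rw [he]; exact_mod_cast c.den_nz
  have hw0 : w ≠ 0 := by rw [hw]; exact_mod_cast r.den_nz
  set A := e * w ^ d + C * u ^ d with hA
  set B := e * u ^ d with hB
  have hB0 : B ≠ 0 := mul_ne_zero he0 (pow_ne_zero _ hu0)
  have hval : (r ^ d)⁻¹ + c = (A : ℚ) / (B : ℚ) := by
    have h1 : r = (u : ℚ) / (w : ℚ) := by rw [hu, hw, Int.cast_natCast, Rat.num_div_den]
    have h2 : c = (C : ℚ) / (e : ℚ) := by rw [hC, he, Int.cast_natCast, Rat.num_div_den]
    have hu0' : (u : ℚ) ≠ 0 := by exact_mod_cast hu0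
    have he0' : (e : ℚ) ≠ 0 := by exact_mod_cast he0
    have hw0' : (w : ℚ) ≠ 0 := by exact_mod_cast hw0
    rw [h2, h1, hA, hB, div_pow, inv_div]
    push_cast
    field_simp
  obtain ⟨g, hg1, hg2⟩ := Rat.exists_eq_mul_div_num_and_eq_mul_div_den A hB0
  rw [← hval] at hg1 hg2
  set y := (r ^ d)⁻¹ + c with hy
  have hcop : IsCoprime (w ^ d) (u ^ d) := by
    have h1 : IsCoprime u w := by
      rw [Int.isCoprime_iff_gcd_eq_one]; exact r.reduced
    exact h1.symm.pow
  have hgdvd : g ∣ e ^ 2 := by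
    obtain ⟨a, b, hab⟩ := hcop
    have h1 : g ∣ A := ⟨_, hg1⟩
    have h2 : g ∣ B := ⟨_, hg2⟩
    have h4 : e ^ 2 = a * (e * A - C * B) + b * (e * B) := by
      rw [hA, hB]
      linear_combination -e ^ 2 * hab
    rw [h4]
    exact dvd_add (Dvd.dvd.mul_left (dvd_sub (Dvd.dvd.mul_left h1 _) (Dvd.dvd.mul_left h2 _)) _)
      (Dvd.dvd.mul_left (Dvd.dvd.mul_left h2 _) _)
  have hgle : g.natAbs ≤ c.den ^ 2 := by
    have h1 := Nat.le_of_dvd (by positivity) (Int.natAbs_dvd_natAbs.2 hgdvd)
    rwa [Int.natAbs_pow, he, Int.natAbs_natCast] at h1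
  set H' := ht (some y) with hH'
  have hs : y.num.natAbs ≤ H' := le_max_left _ _
  have ht' : y.den ≤ H' := le_max_right _ _
  have hAle : A.natAbs ≤ c.den ^ 2 * H' := by
    rw [hg1, Int.natAbs_mul]
    exact Nat.mul_le_mul hgle hs
  have hBle : B.natAbs ≤ c.den ^ 2 * H' := by
    rw [hg2, Int.natAbs_mul, Int.natAbs_natCast]
    exact Nat.mul_le_mul hgle ht'
  have hule : u.natAbs ^ d ≤ B.natAbs := by
    rw [hB, Int.natAbs_mul, Int.natAbs_pow]
    exact Nat.le_mul_of_pos_left _ (Int.natAbs_pos.2 he0)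
  have hwle : r.den ^ d ≤ A.natAbs + C.natAbs * u.natAbs ^ d := by
    have h1 : e * w ^ d = A - C * u ^ d := by rw [hA]; ring
    have h2 : (e * w ^ d).natAbs ≤ A.natAbs + (C * u ^ d).natAbs := by
      rw [h1]; exact Int.natAbs_sub_le _ _
    rw [Int.natAbs_mul, Int.natAbs_mul, Int.natAbs_pow, Int.natAbs_pow, hw, Int.natAbs_natCast] at h2
    exact (Nat.le_mul_of_pos_left _ (Int.natAbs_pos.2 he0)).trans h2
  have h5 : ht (some r) = max u.natAbs r.den := rfl
  rw [h5]
  rcases max_choice u.natAbs r.den with h6 | h6 <;> rw [h6]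
  · calc u.natAbs ^ d ≤ c.den ^ 2 * H' := hule.trans hBle
      _ ≤ c.den ^ 2 * (1 + C.natAbs) * H' := by
        apply Nat.mul_le_mul_right
        exact Nat.le_mul_of_pos_right _ (by omega)
  · calc r.den ^ d ≤ A.natAbs + C.natAbs * u.natAbs ^ d := hwle
      _ ≤ c.den ^ 2 * H' + C.natAbs * (c.den ^ 2 * H') :=
        add_le_add hAle (Nat.mul_le_mul_left _ (hule.trans hBle))
      _ = c.den ^ 2 * (1 + C.natAbs) * H' := by ring

theorem northcott (hd : 2 ≤ d) (c : ℚ) : {x : Option ℚ | Prep d c x}.Finite := by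
  classical
  obtain ⟨K, hK1, hK⟩ := ht_step c d
  have hinc : ∀ x : Option ℚ, K < ht x → ht x < ht (nmap d c x) := by
    intro x hx
    rcases x with _ | r
    · have : ht none = 1 := rfl
      omega
    · have hr : r ≠ 0 := by
        rintro rfl
        have h1 : ht (some 0) = 1 := by simp [ht]
        omega
      rw [nmap_some hr]
      have h1 := hK r hr
      set a := ht (some r)
      set b := ht (some ((r ^ d)⁻¹ + c))
      have h2 : a ^ 2 ≤ a ^ d := Nat.pow_le_pow_right (by omega) hd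
      by_contra hcon
      push Not at hcon
      have h3 : K * b ≤ K * a := Nat.mul_le_mul_left K hcon
      have h4 : K * a < a * a := Nat.mul_lt_mul_of_pos_right hx (by omega)
      nlinarith
  have hle : ∀ x : Option ℚ, Prep d c x → ht x ≤ K := by
    rintro x ⟨m, n, hmn, heq⟩
    by_contra hcon
    push Not at hcon
    have h1 : ∀ k, K < ht ((nmap d c)^[k] x) := by
      intro k
      induction k with
      | zero => exact hcon
      | succ k ih =>
        rw [Function.iterate_succ_apply']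
        exact ih.trans (hinc _ ih)
    have h2 : ∀ k, ht ((nmap d c)^[m] x) < ht ((nmap d c)^[m + (k + 1)] x) := by
      intro k
      induction k with
      | zero =>
        rw [Nat.zero_add, Function.iterate_succ_apply']
        exact hinc _ (h1 m)
      | succ k ih =>
        rw [← Nat.add_assoc m (k + 1) 1, Function.iterate_succ_apply']
        exact ih.trans (hinc _ (h1 _))
    have h3 := h2 (n - m - 1)
    rw [show m + (n - m - 1 + 1) = n by omega, ← heq] at h3
    exact lt_irrefl _ h3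
  refine Set.Finite.subset (Set.Finite.insert none
    ((Finset.finite_toSet ((Icc (-(K : ℤ)) K ×ˢ Icc (1 : ℤ) K : Finset (ℤ × ℤ)))).image
      (fun q : ℤ × ℤ => some ((q.1 : ℚ) / (q.2 : ℚ))))) ?_
  intro x hx
  have h1 := hle x hx
  rcases x with _ | r
  · exact Set.mem_insert _ _
  · right
    have h2 : r.num.natAbs ≤ K := (le_max_left _ _).trans h1
    have h3 : r.den ≤ K := (le_max_right _ _).trans h1
    have h4 := r.den_pos
    refine ⟨(r.num, r.den), ?_, ?_⟩
    · rw [Finset.mem_coe, mem_product, mem_Icc, mem_Icc]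
      simp only
      omega
    · simp only [Int.cast_natCast]
      rw [Rat.num_div_den]

/-- **The uniform bound.** -/
theorem uniform (hde : Even d) (hd : 6 ≤ d) (h3 : 3 ∣ d + 1) :
    ∃ B : ℕ, ∀ c : ℚ, {x : Option ℚ | Prep d c x}.encard ≤ B := by
  classical
  have h1 := exc_fin hde hd h3
  refine ⟨max 2 (h1.toFinset.sup fun c => (northcott (by omega) c : {x : Option ℚ | Prep d c x}.Finite).toFinset.card), fun c => ?_⟩
  by_cases hc : c ∈ Exc d
  · have h2 := (northcott (d := d) (by omega) c).encard_eq_coe_toFinset_card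
    rw [h2]
    have h4 : (northcott (d := d) (by omega) c).toFinset.card ≤ h1.toFinset.sup fun c =>
        (northcott (d := d) (by omega) c : {x : Option ℚ | Prep d c x}.Finite).toFinset.card :=
      Finset.le_sup (f := fun c => (northcott (d := d) (by omega) c :
        {x : Option ℚ | Prep d c x}.Finite).toFinset.card) (h1.mem_toFinset.2 hc)
    exact_mod_cast h4.trans (le_max_right _ _)
  · obtain ⟨z, hz⟩ := two hde hd h3 hc
    have h2 : {x : Option ℚ | Prep d c x} ⊆ {some z, some (-z)} := fun x hx => hz x hx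
    calc {x : Option ℚ | Prep d c x}.encard ≤ ({some z, some (-z)} : Set (Option ℚ)).encard :=
          Set.encard_le_encard h2
      _ ≤ 2 := pair_le _ _
      _ ≤ _ := by exact_mod_cast le_max_left _ _

end Pool.Agent.K6.H33.Neg
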