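import Pool.Agent.K6.H33.NegRed

/-!
# Ratios of consecutive points of the periodic orbits of `x ^ (-d) + c`
-/

set_option autoImplicit false

namespace Pool.Agent.K6.H33.Neg

open Finset Pool.Agent.T6.H62.PP Pool.Agent.T6.H62.UB

variable {d : ℕ} {c : ℚ}

/-- The periodic sequences. -/
theorem iter_add {α : Type*} {f : α → α} {x : α} {N : ℕ} (h : f^[N] x = x) (n : ℕ) :
    f^[n + N] x = f^[n] x := by
  rw [Function.iterate_add_apply, h]

theorem iter_ne {x : Option ℚ} {N : ℕ} (hN : 0 < N) (hper : (nmap d c)^[N] x = x)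
    (hnf : nmap d c x ≠ x) (n : ℕ) : (nmap d c)^[n] x ≠ (nmap d c)^[n + 1] x := by
  intro h0
  apply hnf
  apply fixed_of_iter hN hper n
  rw [← Function.iterate_succ_apply' (nmap d c)]
  exact h0.symm

/-- Integral parameters. -/
theorem int_case (hd : 4 ≤ d) (hde : Even d) (hc : c.den = 1) {x : Option ℚ} {N : ℕ} (hN : 0 < N)
    (hper : (nmap d c)^[N] x = x) (hnf : nmap d c x ≠ x) : |c.num| ≤ 2 := by
  set f := nmap d c with hf
  have h : PSeq d c.num 1 (fun n => (pr (f^[n] x)).1) (fun n => (pr (f^[n] x)).2) := by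
    refine ⟨fun n => pr_cop _, fun n => ?_, fun n => ?_, ?_, ⟨N, hN, fun n => ?_⟩, fun n h0 => ?_⟩
    · have h1 := (pr_step (c := c) (by omega) hde hc (f^[n] x)).1
      rw [← hf, ← Function.iterate_succ_apply' f] at h1
      exact h1
    · have h1 := (pr_step (c := c) (by omega) hde hc (f^[n] x)).2
      rw [← hf, ← Function.iterate_succ_apply' f] at h1
      exact h1
    · push_cast; exact isCoprime_one_right
    · simp only [iter_add hper n, and_self]
    · exact iter_ne hN hper hnf n (pr_inj h0)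
  exact h.abs_le_two hd hde

/-- a perfect power -/
theorem exists_root {m : ℕ} (hm : m ≠ 0)
    (h : ∀ p : ℕ, p.Prime → d ∣ m.factorization p) : ∃ q : ℕ, 0 < q ∧ q ^ d = m := by
  refine ⟨∏ p ∈ m.primeFactors, p ^ (m.factorization p / d), ?_, ?_⟩
  · exact Finset.prod_pos fun p hp => Nat.pow_pos (Nat.prime_of_mem_primeFactors hp).pos
  · rw [← Finset.prod_pow]
    conv_rhs => rw [← Nat.prod_factorization_pow_eq_self hm]
    rw [Finsupp.prod, Nat.support_factorization]
    apply Finset.prod_congr rfl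
    intro p hp
    rw [← pow_mul, Nat.div_mul_cancel (h p (Nat.prime_of_mem_primeFactors hp))]

theorem val_of_norm {p : ℕ} [Fact p.Prime] {r c : ℚ} (hr : r ≠ 0) (hc : c ≠ 0)
    (h : padicNorm p r ^ d * padicNorm p c = 1) :
    (d : ℤ) * padicValRat p r + padicValRat p c = 0 := by
  have hp : p.Prime := Fact.out
  have hp0 : (p : ℚ) ≠ 0 := by exact_mod_cast hp.ne_zero
  rw [padicNorm.eq_zpow_of_nonzero hr, padicNorm.eq_zpow_of_nonzero hc, ← zpow_natCast,
    ← zpow_mul, ← zpow_add₀ hp0] at h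
  have h1 : -padicValRat p r * (d : ℤ) + -padicValRat p c = 0 := by
    have h2 : (p : ℚ) ^ (-padicValRat p r * (d : ℤ) + -padicValRat p c) = (p : ℚ) ^ (0 : ℤ) := by
      rw [h, zpow_zero]
    exact zpow_right_injective₀ (by exact_mod_cast hp.pos) (by exact_mod_cast hp.one_lt.ne') h2
  linarith

theorem norm_gt {p : ℕ} (hp : p.Prime) {c : ℚ} (hpc : p ∣ c.den) :
    haveI := Fact.mk hp
    c ≠ 0 ∧ 1 < padicNorm p c := by
  have := Fact.mk hp
  obtain ⟨h1, h2⟩ := padicValRat_neg_of_dvd_den hp hpc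
  have hc0 : c ≠ 0 := by
    rintro rfl
    exact hp.one_lt.ne' (Nat.dvd_one.1 (by simpa using hpc))
  refine ⟨hc0, ?_⟩
  rw [padicNorm.eq_zpow_of_nonzero hc0, h1, neg_neg]
  exact one_lt_zpow₀ (by exact_mod_cast hp.one_lt) (by omega)

/-- Parameters which are not integral: the ratios of consecutive points. -/
theorem ratio_case (hd : 2 ≤ d) (hde : Even d) (h3 : 3 ∣ d + 1) (hc : c.den ≠ 1)
    {F : Set ℚ} (hF : ∀ X U : ℤ, F3' d X U → (X : ℚ) / (U : ℚ) ∈ F)
    {x : Option ℚ} {N : ℕ} (hN : 0 < N)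
    (hper : (nmap d c)^[N] x = x) (hnf : nmap d c x ≠ x) :
    ∃ r : ℕ → ℚ, (∀ n, (nmap d c)^[n] x = some (r n)) ∧ (∀ n, r n ≠ 0) ∧
      (∀ n, r n ≠ r (n + 1)) ∧ ∀ n, r n / r (n + 1) ∈ F := by
  set f := nmap d c with hf
  -- all points are good
  have hgood : ∀ n, ∃ r : ℚ, f^[n] x = some r ∧ r ≠ 0 ∧
      ∀ p : ℕ, p.Prime → p ∣ c.den → (d : ℤ) * padicValRat p r + padicValRat p c = 0 := by
    intro n
    have hpern : f^[N] (f^[n] x) = f^[n] x := by
      rw [← Function.iterate_add_apply, Nat.add_comm, Function.iterate_add_apply, hper]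
    have hnfn : f (f^[n] x) ≠ f^[n] x := by
      rw [← Function.iterate_succ_apply' f]
      exact (iter_ne hN hper hnf n).symm
    obtain ⟨p0, hp0, hpc0⟩ := Nat.exists_prime_and_dvd hc
    have := Fact.mk hp0
    obtain ⟨r, h1, h2, -⟩ := good (p := p0) (by omega) (norm_gt hp0 hpc0).2 hN hpern hnfn
    refine ⟨r, h1, h2, ?_⟩
    intro p hp hpc
    have := Fact.mk hp
    obtain ⟨r', h1', h2', h3'⟩ := good (p := p) (by omega) (norm_gt hp hpc).2 hN hpern hnfn
    have h4 : r' = r := by
      rw [h1] at h1'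
      exact (Option.some.inj h1').symm
    subst h4
    exact val_of_norm h2' (norm_gt hp hpc).1 h3'
  choose r hr hr0 hrv using hgood
  have hstep : ∀ n, r (n + 1) = (r n ^ d)⁻¹ + c := by
    intro n
    have h1 := hr (n + 1)
    rw [Function.iterate_succ_apply', hr n, hf, nmap_some (hr0 n)] at h1
    exact (Option.some.inj h1).symm
  have hrne : ∀ n, r n ≠ r (n + 1) := by
    intro n h0
    apply iter_ne hN hper hnf n
    rw [← hf, hr, hr, h0]
  -- the denominator of `c` is a `d`-th power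
  obtain ⟨q, hq, hqd⟩ : ∃ q : ℕ, 0 < q ∧ q ^ d = c.den := by
    apply exists_root c.den_nz
    intro p hp
    by_cases hpc : p ∣ c.den
    · have h1 := hrv 0 p hp hpc
      obtain ⟨h2, h4⟩ := padicValRat_neg_of_dvd_den hp hpc
      rw [h2] at h1
      rw [Nat.factorization_def _ hp]
      have h5 : (d : ℤ) ∣ (padicValNat p c.den : ℤ) := ⟨padicValRat p (r 0), by linarith⟩
      exact_mod_cast h5
    · rw [Nat.factorization_eq_zero_of_not_dvd hpc]
      exact dvd_zero _
  have hqQ : (q : ℚ) ≠ 0 := by exact_mod_cast hq.ne'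
  have hcQ : (c.num : ℚ) = c * (q : ℚ) ^ d := by
    have h1 : (c.num : ℚ) / c.den = c := Rat.num_div_den c
    rw [← hqd] at h1
    push_cast at h1
    rw [div_eq_iff (pow_ne_zero _ hqQ)] at h1
    exact h1
  have hq1 : q ≠ 1 := by
    rintro rfl
    rw [one_pow] at hqd
    exact hc hqd.symm
  have hqv : ∀ p : ℕ, p.Prime → p ∣ q → ∀ n, padicValRat p (r n) = padicValRat p (q : ℚ) := by
    intro p hp hpq n
    have := Fact.mk hp
    have hpc : p ∣ c.den := by rw [← hqd]; exact dvd_pow hpq (by omega)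
    have h1 := hrv n p hp hpc
    obtain ⟨h2, -⟩ := padicValRat_neg_of_dvd_den hp hpc
    rw [h2, ← hqd, padicValNat.pow] at h1
    have h5 : padicValRat p (q : ℚ) = (padicValNat p q : ℤ) := padicValRat.of_nat
    have h6 : (d : ℤ) * (padicValRat p (r n) - (padicValNat p q : ℤ)) = 0 := by
      rw [Nat.cast_mul] at h1
      linarith
    rw [h5]
    rcases mul_eq_zero.1 h6 with h7 | h7
    · exact absurd h7 (by exact_mod_cast (by omega : d ≠ 0))
    · linarith
  set y : ℕ → ℚ := fun n => r n / q with hy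
  have hy0 : ∀ n, y n ≠ 0 := fun n => div_ne_zero (hr0 n) hqQ
  have hyden : ∀ n, Nat.Coprime (y n).den q := by
    intro n
    rw [Nat.coprime_iff_gcd_eq_one]
    by_contra hcon
    obtain ⟨p, hp, hpg⟩ := Nat.exists_prime_and_dvd hcon
    have := Fact.mk hp
    have hpq := hpg.trans (Nat.gcd_dvd_right _ _)
    obtain ⟨h1, h2⟩ := padicValRat_neg_of_dvd_den hp (hpg.trans (Nat.gcd_dvd_left _ _))
    have h4 : padicValRat p (y n) = 0 := by
      simp only [hy]
      rw [padicValRat.div (hr0 n) hqQ, hqv p hp hpq n, sub_self]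
    omega
  have hV : ((q ^ (d + 1) : ℕ) : ℚ) = (q : ℚ) ^ (d + 1) := by push_cast; ring
  have hrel : ∀ n, (((q ^ (d + 1) : ℕ) : ℤ) * (y (n + 1)).num =
      ((y n).den : ℤ) ^ d + c.num * (y n).num ^ d) ∧ ((y (n + 1)).den : ℤ) = (y n).num ^ d := by
    intro n
    apply rel (hy0 n) hde
    · rw [hV, hcQ]
      simp only [hy]
      rw [hstep n, div_pow]
      have := hr0 n
      field_simp
      ring
    · exact (hyden (n + 1)).pow_right _
  obtain ⟨k, hk⟩ := h3
  have hV3 : q ^ (d + 1) = (q ^ k) ^ 3 := by rw [← pow_mul, hk, Nat.mul_comm]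
  have hyr : ∀ n, y n = y (n + 1) → r n = r (n + 1) := by
    intro n h0
    simp only [hy] at h0
    rwa [div_left_inj' hqQ] at h0
  have h : PSeq d c.num ((q ^ k) ^ 3) (fun n => (y n).num) (fun n => ((y n).den : ℤ)) := by
    refine ⟨fun n => ?_, fun n => ?_, fun n => ?_, ?_, ⟨N, hN, fun n => ?_⟩, fun n h0 => ?_⟩
    · rw [Int.isCoprime_iff_gcd_eq_one]; exact (y n).reduced
    · rw [← hV3]; exact (hrel n).1
    · exact (hrel n).2
    · rw [← hV3]
      push_cast
      apply IsCoprime.pow_right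
      have h1 : IsCoprime c.num (c.den : ℤ) := by
        rw [Int.isCoprime_iff_gcd_eq_one]
        exact c.reduced
      rw [← hqd] at h1
      push_cast at h1
      exact (IsCoprime.pow_right_iff (by omega)).1 h1
    · have h1 : r (n + N) = r n := by
        have h2 := hr (n + N)
        rw [iter_add hper n, hr n] at h2
        exact (Option.some.inj h2).symm
      simp only [hy, h1, and_self]
    · apply hrne n
      apply hyr
      have h1 : ((y n).num : ℚ) / (y n).den = (y (n + 1)).num / (y (n + 1)).den := by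
        rw [div_eq_div_iff (by exact_mod_cast (y n).den_nz) (by exact_mod_cast (y (n + 1)).den_nz)]
        have h2 : ((y n).num : ℚ) * (y (n + 1)).den = (y n).den * (y (n + 1)).num := by
          exact_mod_cast h0
        linear_combination h2
      rwa [Rat.num_div_den, Rat.num_div_den] at h1
  have hk0 : 1 ≤ k := by omega
  have hqk : 2 ≤ q ^ k := by
    calc 2 ≤ q := by omega
      _ = q ^ 1 := (pow_one q).symm
      _ ≤ q ^ k := Nat.pow_le_pow_right hq hk0
  refine ⟨r, hr, hr0, hrne, fun n => ?_⟩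
  have h1 := hF _ _ (h.f3' hd hqk n)
  have h2 : (((y n).num * ((y (n + 1)).den : ℤ) : ℤ) : ℚ) /
      ((((y n).den : ℤ) * (y (n + 1)).num : ℤ) : ℚ) = r n / r (n + 1) := by
    have e1 : r n / r (n + 1) = y n / y (n + 1) := by
      simp only [hy]
      have := hr0 (n + 1)
      field_simp
    have e2 : y n / y (n + 1) = (((y n).num : ℚ) / (y n).den) /
        (((y (n + 1)).num : ℚ) / (y (n + 1)).den) := by rw [Rat.num_div_den, Rat.num_div_den]
    rw [e1, e2]
    push_cast
    rw [div_div_div_eq]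
  rw [h2] at h1
  exact h1

end Pool.Agent.K6.H33.Neg
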