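import Pool.Agent.K6.H33.NegSeq

/-!
# The maps `x ^ (-d) + c` on `ℙ¹ (ℚ)`: the periodic orbits give sequences
-/

set_option autoImplicit false

namespace Pool.Agent.K6.H33.Neg

/-- The map `x ↦ x ^ (- d) + c` on `ℙ¹(ℚ) = ℚ ∪ {∞}`, where `∞ = none`. -/
def nmap (d : ℕ) (c : ℚ) : Option ℚ → Option ℚ
  | none => some c
  | some x => if x = 0 then none else some ((x ^ d)⁻¹ + c)

variable {d : ℕ} {c : ℚ}

theorem nmap_none : nmap d c none = some c := rfl

theorem nmap_zero : nmap d c (some 0) = none := by simp [nmap]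

theorem nmap_some {x : ℚ} (hx : x ≠ 0) : nmap d c (some x) = some ((x ^ d)⁻¹ + c) := by
  simp [nmap, hx]

section norms

variable {p : ℕ} [hp : Fact p.Prime]

theorem pn_inv (x : ℚ) : padicNorm p x⁻¹ = (padicNorm p x)⁻¹ :=
  IsAbsoluteValue.abv_inv (padicNorm p) x

theorem pn_pow (x : ℚ) (n : ℕ) : padicNorm p (x ^ n) = (padicNorm p x) ^ n :=
  IsAbsoluteValue.abv_pow (padicNorm p) x n

theorem pn_mul (x y : ℚ) : padicNorm p (x * y) = padicNorm p x * padicNorm p y :=
  padicNorm.mul x y

/-- near the attracting fixed point -/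
theorem basin (hd : 1 ≤ d) (hc : 1 < padicNorm p c) {s : ℚ} (hs : padicNorm p s = padicNorm p c) :
    s ≠ 0 ∧ padicNorm p ((s ^ d)⁻¹ + c) = padicNorm p c := by
  have hs0 : s ≠ 0 := by
    rintro rfl
    rw [padicNorm.zero] at hs
    rw [← hs] at hc
    linarith
  refine ⟨hs0, ?_⟩
  have h1 : padicNorm p ((s ^ d)⁻¹) < 1 := by
    rw [pn_inv, pn_pow, hs]
    exact inv_lt_one_of_one_lt₀ (one_lt_pow₀ hc (by omega))
  rw [padicNorm.add_eq_max_of_ne (by intro h2; rw [h2] at h1; linarith)]
  exact max_eq_right (by linarith)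

/-- the differences get smaller -/
theorem contract (hd : 1 ≤ d) (hc : 1 < padicNorm p c) {s t : ℚ}
    (hs : padicNorm p s = padicNorm p c) (ht : padicNorm p t = padicNorm p c) (hne : s ≠ t) :
    padicNorm p (((s ^ d)⁻¹ + c) - ((t ^ d)⁻¹ + c)) < padicNorm p (s - t) := by
  obtain ⟨hs0, -⟩ := basin hd hc hs
  obtain ⟨ht0, -⟩ := basin hd hc ht
  set α := padicNorm p c with hα
  have hα0 : 0 < α := by linarith
  have h1 : ((s ^ d)⁻¹ + c) - ((t ^ d)⁻¹ + c) =
      -((s - t) * (∑ i ∈ Finset.range d, s ^ i * t ^ (d - 1 - i)) * ((s ^ d)⁻¹ * (t ^ d)⁻¹)) := by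
    have h2 := (Commute.all s t).geom_sum₂_mul d
    rw [mul_comm (s - t), h2]
    field_simp
    ring
  have hsum : padicNorm p (∑ i ∈ Finset.range d, s ^ i * t ^ (d - 1 - i)) ≤ α ^ (d - 1) := by
    apply padicNorm.sum_le'
    · intro i hi
      rw [Finset.mem_range] at hi
      rw [pn_mul, pn_pow, pn_pow, hs, ht, ← pow_add]
      rw [show i + (d - 1 - i) = d - 1 by omega]
    · positivity
  have hst : 0 < padicNorm p (s - t) := by
    have := padicNorm.nonneg (p := p) (s - t)
    exact lt_of_le_of_ne this (fun h0 => sub_ne_zero.2 hne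
      (padicNorm.zero_of_padicNorm_eq_zero h0.symm))
  rw [h1, padicNorm.neg, pn_mul, pn_mul, pn_mul, pn_inv, pn_inv, pn_pow, pn_pow, hs, ht,
    mul_assoc]
  have h3 : padicNorm p (∑ i ∈ Finset.range d, s ^ i * t ^ (d - 1 - i)) *
      ((α ^ d)⁻¹ * (α ^ d)⁻¹) < 1 := by
    have h4 : α ^ (d - 1) * ((α ^ d)⁻¹ * (α ^ d)⁻¹) < 1 := by
      obtain ⟨e, rfl⟩ : ∃ e, d = e + 1 := ⟨d - 1, by omega⟩
      simp only [Nat.add_sub_cancel]
      have h5 : α ^ e * ((α ^ (e + 1))⁻¹ * (α ^ (e + 1))⁻¹) = (α ^ (e + 2))⁻¹ := by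
        field_simp
        ring
      rw [h5]
      exact inv_lt_one_of_one_lt₀ (one_lt_pow₀ hc (by omega))
    exact (mul_le_mul_of_nonneg_right hsum (by positivity)).trans_lt h4
  calc padicNorm p (s - t) * (padicNorm p (∑ i ∈ Finset.range d, s ^ i * t ^ (d - 1 - i)) *
      ((α ^ d)⁻¹ * (α ^ d)⁻¹)) < padicNorm p (s - t) * 1 := mul_lt_mul_of_pos_left h3 hst
    _ = _ := mul_one _

/-- A periodic point in the basin is fixed. -/
theorem fixed_of_basin (hd : 1 ≤ d) (hc : 1 < padicNorm p c) {s : ℚ}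
    (hs : padicNorm p s = padicNorm p c) {N : ℕ} (hN : 0 < N)
    (hper : (nmap d c)^[N] (some s) = some s) : nmap d c (some s) = some s := by
  -- the orbit
  have horb : ∀ n, ∃ r : ℚ, (nmap d c)^[n] (some s) = some r ∧ padicNorm p r = padicNorm p c := by
    intro n
    induction n with
    | zero => exact ⟨s, rfl, hs⟩
    | succ n ih =>
      obtain ⟨r, h1, h2⟩ := ih
      obtain ⟨h3, h4⟩ := basin hd hc h2
      exact ⟨_, by rw [Function.iterate_succ_apply', h1, nmap_some h3], h4⟩
  choose r hr hrn using horb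
  have hr0 : r 0 = s := by
    have := hr 0
    simpa using this.symm
  have hstep : ∀ n, r (n + 1) = (r n ^ d)⁻¹ + c := by
    intro n
    have h1 := hr (n + 1)
    rw [Function.iterate_succ_apply', hr n, nmap_some (basin hd hc (hrn n)).1] at h1
    exact (Option.some.inj h1).symm
  by_contra hfix
  have hne : r 0 ≠ r 1 := by
    intro h0
    apply hfix
    have h1 := hr 1
    rw [Function.iterate_one] at h1
    rw [h1, ← h0, hr0]
  have hrN : r N = r 0 := by
    have h1 := hr N
    rw [hper] at h1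
    rw [hr0]
    exact (Option.some.inj h1).symm
  have hrN1 : r (N + 1) = r 1 := by rw [hstep, hrN, ← hstep]
  -- no two consecutive terms agree
  have hall : ∀ n, r n ≠ r (n + 1) := by
    intro n h0
    have h1 : ∀ k, r (n + k) = r (n + k + 1) := by
      intro k
      induction k with
      | zero => exact h0
      | succ k ih =>
        rw [show n + (k + 1) = n + k + 1 by ring, hstep, hstep (n + k + 1), ← ih]
    have h2 : ∀ k, r (k * N) = r 0 ∧ r (k * N + 1) = r 1 := by
      intro k
      induction k with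
      | zero => simp
      | succ k ih =>
        have h3 : ∀ j, r (N + j) = r j := by
          intro j
          induction j with
          | zero => simpa using hrN
          | succ j ihj => rw [← Nat.add_assoc, hstep, ihj, ← hstep]
        rw [Nat.succ_mul, Nat.add_comm (k * N) N, Nat.add_assoc, h3, h3]
        exact ih
    have h3 := h1 (n * N - n)
    have h4 : n ≤ n * N := Nat.le_mul_of_pos_right n hN
    rw [show n + (n * N - n) = n * N by omega, (h2 n).1, (h2 n).2] at h3
    exact hne h3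
  have hlt : ∀ n, padicNorm p (r (n + 1) - r (n + 2)) < padicNorm p (r n - r (n + 1)) := by
    intro n
    have h1 := contract hd hc (hrn n) (hrn (n + 1)) (hall n)
    rw [← hstep, ← hstep] at h1
    exact h1
  have hlt' : ∀ n, padicNorm p (r (n + 1) - r (n + 2)) < padicNorm p (r 0 - r 1) := by
    intro n
    induction n with
    | zero => exact hlt 0
    | succ n ih => exact (hlt (n + 1)).trans ih
  have h1 := hlt' (N - 1)
  rw [show N - 1 + 1 = N by omega, show N - 1 + 2 = N + 1 by omega, hrN, hrN1] at h1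
  exact lt_irrefl _ h1

/-- If an iterate of a periodic point is fixed, so is the point. -/
theorem fixed_of_iter {x : Option ℚ} {N : ℕ} (hN : 0 < N) (hper : (nmap d c)^[N] x = x) (k : ℕ)
    (hk : nmap d c ((nmap d c)^[k] x) = (nmap d c)^[k] x) : nmap d c x = x := by
  set f := nmap d c with hf
  have h1 : ∀ m, f^[N * m] x = x := by
    intro m
    induction m with
    | zero => rfl
    | succ m ih => rw [Nat.mul_succ, Function.iterate_add_apply, hper, ih]
  have h2 : ∀ m, f^[m] (f^[k] x) = f^[k] x := by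
    intro m
    induction m with
    | zero => rfl
    | succ m ih => rw [Function.iterate_succ_apply, hk, ih]
  have h3 : f^[k] x = x := by
    have h4 := h2 (N * k - k)
    have hle : k ≤ N * k := Nat.le_mul_of_pos_left k hN
    rw [← Function.iterate_add_apply, Nat.sub_add_cancel hle, h1] at h4
    exact h4.symm
  rw [h3] at hk
  exact hk

/-- A periodic point which is not fixed has the good absolute value. -/
theorem good (hd : 1 ≤ d) (hc : 1 < padicNorm p c) {x : Option ℚ} {N : ℕ} (hN : 0 < N)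
    (hper : (nmap d c)^[N] x = x) (hnf : nmap d c x ≠ x) :
    ∃ r : ℚ, x = some r ∧ r ≠ 0 ∧ padicNorm p r ^ d * padicNorm p c = 1 := by
  by_contra hcon
  push Not at hcon
  -- an iterate in the basin
  have hbas : ∃ (k : ℕ) (s : ℚ), (nmap d c)^[k] x = some s ∧ padicNorm p s = padicNorm p c := by
    rcases x with _ | r
    · exact ⟨1, c, rfl, rfl⟩
    by_cases hr0 : r = 0
    · refine ⟨2, c, ?_, rfl⟩
      rw [hr0, Function.iterate_succ_apply, Function.iterate_one, nmap_zero, nmap_none]
    have h1 := hcon r rfl hr0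
    have hrp : 0 < padicNorm p r := by
      exact lt_of_le_of_ne (padicNorm.nonneg r) (fun h0 => hr0
        (padicNorm.zero_of_padicNorm_eq_zero h0.symm))
    have h2 : padicNorm p ((r ^ d)⁻¹) = (padicNorm p r ^ d)⁻¹ := by rw [pn_inv, pn_pow]
    have h3 : padicNorm p ((r ^ d)⁻¹) ≠ padicNorm p c := by
      rw [h2]
      intro h4
      apply h1
      rw [← h4]
      exact mul_inv_cancel₀ (pow_ne_zero _ hrp.ne')
    have h4 : padicNorm p ((r ^ d)⁻¹ + c) = max (padicNorm p ((r ^ d)⁻¹)) (padicNorm p c) :=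
      padicNorm.add_eq_max_of_ne h3
    rcases lt_or_gt_of_ne h3 with h5 | h5
    · refine ⟨1, (r ^ d)⁻¹ + c, by rw [Function.iterate_one, nmap_some hr0], ?_⟩
      rw [h4, max_eq_right h5.le]
    · rw [max_eq_left h5.le] at h4
      set s := (r ^ d)⁻¹ + c with hs
      have hs0 : s ≠ 0 := by
        intro h0
        rw [h0, padicNorm.zero] at h4
        linarith
      refine ⟨2, (s ^ d)⁻¹ + c, ?_, ?_⟩
      · rw [Function.iterate_succ_apply, Function.iterate_one, nmap_some hr0, ← hs, nmap_some hs0]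
      · have h6 : padicNorm p ((s ^ d)⁻¹) < 1 := by
          rw [pn_inv, pn_pow]
          exact inv_lt_one_of_one_lt₀ (one_lt_pow₀ (by rw [h4]; linarith) (by omega))
        rw [padicNorm.add_eq_max_of_ne (by intro h7; rw [h7] at h6; linarith)]
        exact max_eq_right (by linarith)
  obtain ⟨k, s, h1, h2⟩ := hbas
  apply hnf
  apply fixed_of_iter hN hper k
  rw [h1]
  apply fixed_of_basin hd hc h2 hN
  rw [← h1, ← Function.iterate_add_apply, Nat.add_comm, Function.iterate_add_apply, hper]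

end norms

/-- the coordinates of the image -/
theorem rel {x x' : ℚ} {V : ℕ} {b : ℤ} (hx : x ≠ 0) (hde : Even d)
    (h : (V : ℚ) * x' = (x ^ d)⁻¹ + b) (hc : Nat.Coprime x'.den V) :
    (V : ℤ) * x'.num = (x.den : ℤ) ^ d + b * x.num ^ d ∧ (x'.den : ℤ) = x.num ^ d := by
  have hu : x.num ≠ 0 := Rat.num_ne_zero.2 hx
  have hud : x.num ^ d ≠ 0 := pow_ne_zero _ hu
  have huQ : ((x.num : ℤ) : ℚ) ≠ 0 := by exact_mod_cast hu
  have hwQ : ((x.den : ℕ) : ℚ) ≠ 0 := by exact_mod_cast x.den_nz
  have htQ : ((x'.den : ℕ) : ℚ) ≠ 0 := by exact_mod_cast x'.den_nz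
  have hcop : IsCoprime x.num (x.den : ℤ) := by
    rw [Int.isCoprime_iff_gcd_eq_one]; exact x.reduced
  have hcop' : IsCoprime x'.num (x'.den : ℤ) := by
    rw [Int.isCoprime_iff_gcd_eq_one]; exact x'.reduced
  have hcV : IsCoprime (x'.den : ℤ) (V : ℤ) := by
    rw [Nat.isCoprime_iff_coprime]; exact hc
  have e1 : (V : ℤ) * x'.num * x.num ^ d = x'.den * ((x.den : ℤ) ^ d + b * x.num ^ d) := by
    have h1 : (V : ℚ) * ((x'.num : ℚ) / x'.den) = (((x.num : ℚ) / x.den) ^ d)⁻¹ + b := by
      rw [Rat.num_div_den, Rat.num_div_den]; exact h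
    rw [div_pow, inv_div] at h1
    have h2 : (V : ℚ) * (x'.num : ℚ) * (x.num : ℚ) ^ d =
        (x'.den : ℚ) * ((x.den : ℚ) ^ d + b * (x.num : ℚ) ^ d) := by
      field_simp at h1
      linear_combination h1
    exact_mod_cast h2
  have hcop2 : IsCoprime (x.num ^ d) ((x.den : ℤ) ^ d + b * x.num ^ d) := by
    have h1 : IsCoprime (x.num ^ d) ((x.den : ℤ) ^ d) := hcop.pow
    have h2 := h1.add_mul_left_right b
    rwa [mul_comm (x.num ^ d) b] at h2
  have h1 : x.num ^ d ∣ (x'.den : ℤ) := by
    apply hcop2.dvd_of_dvd_mul_right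
    rw [← e1]
    exact dvd_mul_left _ _
  have h2 : (x'.den : ℤ) ∣ x.num ^ d := by
    have h3 : IsCoprime (x'.den : ℤ) ((V : ℤ) * x'.num) := hcV.mul_right hcop'.symm
    apply h3.dvd_of_dvd_mul_left
    rw [e1]
    exact dvd_mul_right _ _
  have h3 : (x'.den : ℤ) = x.num ^ d := by
    apply Int.dvd_antisymm (by positivity) (hde.pow_nonneg _) h2 h1
  refine ⟨?_, h3⟩
  apply mul_right_cancel₀ hud
  rw [e1, h3]
  ring

/-- coordinates -/
def pr : Option ℚ → ℤ × ℤ
  | none => (1, 0)
  | some r => (r.num, r.den)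

theorem pr_cop (z : Option ℚ) : IsCoprime (pr z).1 (pr z).2 := by
  rcases z with _ | r
  · exact isCoprime_one_left
  · simp only [pr]
    rw [Int.isCoprime_iff_gcd_eq_one]; exact r.reduced

theorem pr_inj {z z' : Option ℚ} (h : (pr z).1 * (pr z').2 = (pr z).2 * (pr z').1) : z = z' := by
  rcases z with _ | r <;> rcases z' with _ | r'
  · rfl
  · simp only [pr, one_mul, zero_mul] at h
    exact absurd (by exact_mod_cast h) r'.den_nz
  · simp only [pr, mul_zero, mul_one] at h
    exact absurd (by exact_mod_cast h.symm) r.den_nz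
  · simp only [pr] at h
    have h1 : (r.num : ℚ) / r.den = r'.num / r'.den := by
      rw [div_eq_div_iff (by exact_mod_cast r.den_nz) (by exact_mod_cast r'.den_nz)]
      have h2 : (r.num : ℚ) * r'.den = r.den * r'.num := by exact_mod_cast h
      linear_combination h2
    rw [Rat.num_div_den, Rat.num_div_den] at h1
    rw [h1]

theorem pr_step (hd : 0 < d) (hde : Even d) (hc : c.den = 1) (z : Option ℚ) :
    ((1 : ℕ) : ℤ) * (pr (nmap d c z)).1 = (pr z).2 ^ d + c.num * (pr z).1 ^ d ∧
      (pr (nmap d c z)).2 = (pr z).1 ^ d := by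
  have hcn : ((c.num : ℤ) : ℚ) = c := Rat.coe_int_num_of_den_eq_one hc
  rcases z with _ | r
  · simp only [nmap_none, pr, hc]
    simp [hd.ne']
  · by_cases hr : r = 0
    · subst hr
      simp only [nmap_zero, pr]
      simp [hd.ne']
    · rw [nmap_some hr]
      simp only [pr]
      apply rel hr hde
      · rw [hcn]; push_cast; ring
      · exact Nat.coprime_one_right _


end Pool.Agent.K6.H33.Neg
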