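import Pool.Agent.T6.H62.PP.TailG
import Pool.Agent.T6.H62.PP.Val
import Pool.Agent.T6.H62.PP.GFin
import Pool.Agent.T6.H62.PP.Sel

/-!
# Periodic sequences for the maps `(1 + b x ^ d) / (V x ^ d)`
-/

set_option autoImplicit false

namespace Pool.Agent.K6.H33.Neg

open Finset Pool.Agent.T6.H62.PP Pool.Agent.T6.H62.PP.G

/-- The coprime coordinates of a rational periodic orbit, which is not a fixed point, of the map
`(u : w) ↦ (w ^ d + b u ^ d : V u ^ d)`. -/
structure PSeq (d : ℕ) (b : ℤ) (V : ℕ) (u w : ℕ → ℤ) : Prop where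
  cop : ∀ n, IsCoprime (u n) (w n)
  e1 : ∀ n, (V : ℤ) * u (n + 1) = (w n) ^ d + b * (u n) ^ d
  e2 : ∀ n, w (n + 1) = (u n) ^ d
  copB : IsCoprime b (V : ℤ)
  per : ∃ N, 0 < N ∧ ∀ n, u (n + N) = u n ∧ w (n + N) = w n
  ne : ∀ n, u n * w (n + 1) ≠ w n * u (n + 1)

namespace PSeq

variable {d V : ℕ} {b : ℤ} {u w : ℕ → ℤ}

theorem step (h : PSeq d b V u w) (n : ℕ) :
    (V : ℤ) * (u (n + 1) * w (n + 2) - w (n + 1) * u (n + 2)) =
      -((u n * w (n + 1)) ^ d - (w n * u (n + 1)) ^ d) := by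
  have h1 := h.e1 n
  have h2 : (V : ℤ) * u (n + 2) = (w (n + 1)) ^ d + b * (u (n + 1)) ^ d := h.e1 (n + 1)
  have h3 : w (n + 2) = (u (n + 1)) ^ d := h.e2 (n + 1)
  have h4 := h.e2 n
  rw [h3, mul_pow, mul_pow]
  have h5 : (V : ℤ) * (u (n + 1) * u (n + 1) ^ d - w (n + 1) * u (n + 2)) =
      (V * u (n + 1)) * u (n + 1) ^ d - w (n + 1) * (V * u (n + 2)) := by ring
  rw [h5, h1, h2, h4]
  ring

theorem pow_ne (h : PSeq d b V u w) (hV : 0 < V) (n : ℕ) :
    (u n * w (n + 1)) ^ d ≠ (w n * u (n + 1)) ^ d := by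
  intro h0
  have h1 := h.step n
  rw [h0, sub_self, neg_zero] at h1
  have h2 : (V : ℤ) ≠ 0 := by exact_mod_cast hV.ne'
  rcases mul_eq_zero.1 h1 with h3 | h3
  · exact h2 h3
  · exact h.ne (n + 1) (sub_eq_zero.1 h3)

theorem val_step (h : PSeq d b V u w) (hV : 0 < V) {q : ℕ} (hq : q.Prime) (n : ℕ) :
    padicValInt q ((u n * w (n + 1)) ^ d - (w n * u (n + 1)) ^ d) =
      V.factorization q + padicValInt q (u (n + 1) * w (n + 2) - w (n + 1) * u (n + 2)) := by
  have := Fact.mk hq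
  have hVz : (V : ℤ) ≠ 0 := by exact_mod_cast hV.ne'
  have h1 := h.step n
  have h2 : padicValInt q (-((u n * w (n + 1)) ^ d - (w n * u (n + 1)) ^ d)) =
      padicValInt q ((u n * w (n + 1)) ^ d - (w n * u (n + 1)) ^ d) := by
    simp only [padicValInt, Int.natAbs_neg]
  rw [← h2, ← h1, padicValInt.mul hVz (sub_ne_zero.2 (h.ne (n + 1))), padicValInt.of_nat,
    Nat.factorization_def _ hq]

theorem not_dvd_u (h : PSeq d b V u w) (hd : 0 < d) {p : ℕ} (hp : p.Prime) (hpV : p ∣ V) (n : ℕ) :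
    ¬ (p : ℤ) ∣ u n := by
  intro h0
  have hpi : Prime (p : ℤ) := Nat.prime_iff_prime_int.1 hp
  have h1 : (p : ℤ) ∣ w n ^ d := by
    have h2 : w n ^ d = (V : ℤ) * u (n + 1) - b * (u n) ^ d := by rw [h.e1 n]; ring
    rw [h2]
    exact dvd_sub (Dvd.dvd.mul_right (Int.natCast_dvd_natCast.2 hpV) _)
      (Dvd.dvd.mul_left (dvd_pow h0 hd.ne') _)
  exact hpi.not_isUnit ((h.cop n).isUnit_of_dvd' h0 (hpi.dvd_of_dvd_pow h1))

theorem not_dvd_w (h : PSeq d b V u w) (hd : 0 < d) {p : ℕ} (hp : p.Prime) (hpV : p ∣ V) (n : ℕ) :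
    ¬ (p : ℤ) ∣ w n := by
  intro h0
  have hpi : Prime (p : ℤ) := Nat.prime_iff_prime_int.1 hp
  have h1 : (p : ℤ) ∣ b * u n ^ d := by
    have h2 : b * u n ^ d = (V : ℤ) * u (n + 1) - (w n) ^ d := by rw [h.e1 n]; ring
    rw [h2]
    exact dvd_sub (Dvd.dvd.mul_right (Int.natCast_dvd_natCast.2 hpV) _) (dvd_pow h0 hd.ne')
  rcases hpi.dvd_or_dvd h1 with h2 | h2
  · exact hpi.not_isUnit (h.copB.isUnit_of_dvd' h2 (Int.natCast_dvd_natCast.2 hpV))
  · exact h.not_dvd_u hd hp hpV n (hpi.dvd_of_dvd_pow h2)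

theorem dvd_val {v : ℕ} (h : PSeq d b (v ^ 3) u w) (hd : 0 < d) (hv : 0 < v) {p : ℕ}
    (hp : p.Prime) (hpv : p ∣ v) (hpd : ¬ p ∣ d) :
    ∀ (N n : ℕ), padicValInt p (u n * w (n + 1) - w n * u (n + 1)) = N → 3 ∣ N := by
  have := Fact.mk hp
  have hpi : Prime (p : ℤ) := Nat.prime_iff_prime_int.1 hp
  have hpV : p ∣ v ^ 3 := dvd_pow hpv (by norm_num)
  intro N
  induction N using Nat.strong_induction_on with
  | _ N ih =>
    intro n hN
    by_cases hdv : (p : ℤ) ∣ u n * w (n + 1) - w n * u (n + 1)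
    · have h1 := val_mul hp (h.pow_ne (by positivity) n)
      have hnd : ¬ (p : ℤ) ∣ w n * u (n + 1) := by
        intro h2
        rcases hpi.dvd_or_dvd h2 with h3 | h3
        · exact h.not_dvd_w hd hp hpV n h3
        · exact h.not_dvd_u hd hp hpV (n + 1) h3
      rw [padicValInt.eq_zero_of_not_dvd (not_dvd_psi hp hpd hdv hnd), add_zero,
        h.val_step (by positivity) hp n] at h1
      have h2 : 0 < v.factorization p := hp.factorization_pos_of_dvd hv.ne' hpv
      have h3 : (v ^ 3).factorization p = 3 * v.factorization p := by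
        rw [Nat.factorization_pow]; simp
      rw [hN, h3] at h1
      have h5 := ih (padicValInt p (u (n + 1) * w (n + 2) - w (n + 1) * u (n + 2)))
        (by omega) (n + 1) rfl
      rw [← h1]
      exact dvd_add (dvd_mul_right 3 _) h5
    · rw [padicValInt.eq_zero_of_not_dvd hdv] at hN
      rw [← hN]; exact dvd_zero _

/-- **Dynamical units** -/
theorem unit (h : PSeq d b V u w) (hV : 0 < V) {q : ℕ} (hq : q.Prime) (hqV : ¬ q ∣ V) (n : ℕ) :
    ¬ (q : ℤ) ∣ Psi d (u n * w (n + 1)) (w n * u (n + 1)) := by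
  have := Fact.mk hq
  have hstep : ∀ n, padicValInt q (u (n + 1) * w (n + 2) - w (n + 1) * u (n + 2)) =
      padicValInt q (u n * w (n + 1) - w n * u (n + 1)) +
        padicValInt q (Psi d (u n * w (n + 1)) (w n * u (n + 1))) := by
    intro n
    have h1 := h.val_step hV hq n
    rw [Nat.factorization_eq_zero_of_not_dvd hqV, Nat.zero_add, val_mul hq (h.pow_ne hV n)] at h1
    exact h1.symm
  have hmono : ∀ k, padicValInt q (u (n + 1) * w (n + 2) - w (n + 1) * u (n + 2)) ≤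
      padicValInt q (u (n + 1 + k) * w (n + 2 + k) - w (n + 1 + k) * u (n + 2 + k)) := by
    intro k
    induction k with
    | zero => exact le_rfl
    | succ k ih =>
      refine ih.trans ?_
      have h2 := hstep (n + 1 + k)
      rw [show n + 1 + k + 1 = n + 2 + k by ring, show n + 1 + k + 2 = n + 2 + (k + 1) by ring] at h2
      rw [show n + 1 + (k + 1) = n + 2 + k by ring]
      omega
  obtain ⟨N, hN, hper⟩ := h.per
  have h1 := hmono (N - 1)
  rw [show n + 1 + (N - 1) = n + N by omega, show n + 2 + (N - 1) = n + 1 + N by omega,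
    (hper n).1, (hper n).2, (hper (n + 1)).1, (hper (n + 1)).2, hstep n] at h1
  intro hdvd
  have h2 : 1 ≤ padicValInt q (Psi d (u n * w (n + 1)) (w n * u (n + 1))) := by
    by_contra hcon
    have h3 : padicValInt q (Psi d (u n * w (n + 1)) (w n * u (n + 1))) = 0 := by omega
    rw [padicValInt.eq_zero_iff] at h3
    rcases h3 with h3 | h3 | h3
    · exact hq.one_lt.ne' h3
    · exact psi_ne_zero (h.pow_ne hV n) h3
    · exact h3 hdvd
  omega

theorem u_ne (h : PSeq d b V u w) (hd : 0 < d) (hV : 2 ≤ V) (n : ℕ) : u n ≠ 0 := by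
  obtain ⟨p, hp, hpv⟩ := Nat.exists_prime_and_dvd (show V ≠ 1 by omega)
  intro h0
  apply h.not_dvd_u hd hp hpv n
  rw [h0]; exact dvd_zero _

theorem w_ne (h : PSeq d b V u w) (hd : 0 < d) (hV : 2 ≤ V) (n : ℕ) : w n ≠ 0 := by
  obtain ⟨p, hp, hpv⟩ := Nat.exists_prime_and_dvd (show V ≠ 1 by omega)
  intro h0
  apply h.not_dvd_w hd hp hpv n
  rw [h0]; exact dvd_zero _

/-- Consecutive points satisfy `F3'`. -/
theorem f3' {v : ℕ} (h : PSeq d b (v ^ 3) u w) (hd : 2 ≤ d) (hv : 2 ≤ v) (n : ℕ) :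
    F3' d (u n * w (n + 1)) (w n * u (n + 1)) := by
  have hV : 2 ≤ v ^ 3 := by
    calc 2 ≤ v := hv
      _ = v ^ 1 := (pow_one v).symm
      _ ≤ v ^ 3 := Nat.pow_le_pow_right (by omega) (by norm_num)
  refine ⟨mul_ne_zero (h.w_ne (by omega) hV n) (h.u_ne (by omega) hV (n + 1)),
    h.pow_ne (by omega) n, ?_⟩
  intro q hq hqd
  have := Fact.mk hq
  by_cases hqv : q ∣ v
  · have hqV : q ∣ v ^ 3 := dvd_pow hqv (by norm_num)
    have hpi : Prime (q : ℤ) := Nat.prime_iff_prime_int.1 hq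
    constructor
    · rintro ⟨h1, -⟩
      rcases hpi.dvd_or_dvd h1 with h3 | h3
      · exact h.not_dvd_u (by omega) hq hqV n h3
      · exact h.not_dvd_w (by omega) hq hqV (n + 1) h3
    · have h1 := h.val_step (by positivity) hq n
      have h2 := h.dvd_val (by omega) (by omega) hq hqv hqd _ n rfl
      have h3 : 3 ∣ padicValInt q (u (n + 1) * w (n + 2) - w (n + 1) * u (n + 2)) :=
        h.dvd_val (by omega) (by omega) hq hqv hqd _ (n + 1) rfl
      have h4 : (v ^ 3).factorization q = 3 * v.factorization q := by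
        rw [Nat.factorization_pow]; simp
      rw [val_mul hq (h.pow_ne (by omega) n), h4] at h1
      have h5 : 3 ∣ padicValInt q (u n * w (n + 1) - w n * u (n + 1)) +
          padicValInt q (Psi d (u n * w (n + 1)) (w n * u (n + 1))) := by
        rw [h1]
        exact dvd_add (dvd_mul_right 3 _) h3
      exact (Nat.dvd_add_right h2).1 h5
  · have hqV : ¬ q ∣ v ^ 3 := fun h0 => hqv (hq.dvd_of_dvd_pow h0)
    have h1 := h.unit (by positivity) hq hqV n
    refine ⟨?_, by rw [padicValInt.eq_zero_of_not_dvd h1]; exact dvd_zero _⟩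
    rintro ⟨h2, h4⟩
    apply h1
    unfold Psi
    apply dvd_sum
    intro i hi
    rw [mem_range] at hi
    rcases Nat.eq_zero_or_pos i with h5 | h5
    · subst h5
      exact Dvd.dvd.mul_left (dvd_pow h4 (by omega)) _
    · exact Dvd.dvd.mul_right (dvd_pow h2 (by omega)) _

/-- Everywhere good reduction: `|b| ≤ 2`. -/
theorem abs_le_two (h : PSeq d b 1 u w) (hd : 4 ≤ d) (hde : Even d) : |b| ≤ 2 := by
  have key : ∀ n, |u n * w (n + 1)| ≤ 1 := by
    intro n
    set x := u n * w (n + 1) with hx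
    set y := w n * u (n + 1) with hy
    have hpow : x ^ d ≠ y ^ d := h.pow_ne one_pos n
    have hunit : (Psi d x y).natAbs = 1 := by
      by_contra hcon
      obtain ⟨q, hq, hqd⟩ := Nat.exists_prime_and_dvd hcon
      exact h.unit one_pos hq (fun h1 => hq.one_lt.ne' (Nat.dvd_one.1 h1)) n
        (Int.natCast_dvd.2 hqd)
    have h1 : |x ^ d - y ^ d| = |x - y| := by
      rw [← psi_mul, abs_mul, Int.abs_eq_natAbs (Psi d x y), hunit]
      simp
    have h2 : |(|x| ^ d - |y| ^ d)| ≤ |x| + |y| := by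
      rw [hde.pow_abs, hde.pow_abs, h1]
      exact abs_sub x y
    have h3 : |x| ≠ |y| := by
      intro h4
      apply hpow
      rw [← hde.pow_abs, h4, hde.pow_abs]
    have aux : ∀ x y : ℤ, 0 ≤ y → y < x → x ^ d - y ^ d ≤ x + y → x ≤ 1 := by
      intro x y hy hyx h4
      by_contra hx
      push Not at hx
      have h5 : y ^ d ≤ (x - 1) ^ d := pow_le_pow_left₀ hy (by omega) d
      have h6 : (x - 1) ^ d ≤ (x - 1) * x ^ (d - 1) := by
        obtain ⟨e, rfl⟩ : ∃ e, d = e + 1 := ⟨d - 1, by omega⟩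
        simp only [Nat.add_sub_cancel]
        rw [pow_succ, mul_comm]
        exact mul_le_mul_of_nonneg_left (pow_le_pow_left₀ (by omega) (by omega) e) (by omega)
      have h7 : x ^ d = x * x ^ (d - 1) := by
        obtain ⟨e, rfl⟩ : ∃ e, d = e + 1 := ⟨d - 1, by omega⟩
        simp only [Nat.add_sub_cancel]
        rw [pow_succ, mul_comm]
      have h8 : x ^ (d - 1) ≤ x + y := by nlinarith
      have h9 : x ^ 3 ≤ x ^ (d - 1) := pow_le_pow_right₀ (by omega) (by omega)
      nlinarith [sq_nonneg x, mul_self_nonneg (x - 2)]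
    rcases lt_or_gt_of_ne h3 with h4 | h4
    · have h5 : |y| ^ d - |x| ^ d ≤ |y| + |x| := by
        have := neg_abs_le (|x| ^ d - |y| ^ d)
        linarith
      have := aux _ _ (abs_nonneg x) h4 h5
      omega
    · have h5 : |x| ^ d - |y| ^ d ≤ |x| + |y| := (le_abs_self _).trans h2
      exact aux _ _ (abs_nonneg y) h4 h5
  have hu : ∀ n, |u n| ≤ 1 := by
    intro n
    have h1 := key n
    rw [h.e2 n] at h1
    by_contra hcon
    push Not at hcon
    have h2 : |u n| ^ 1 ≤ |u n| ^ (d + 1) := pow_le_pow_right₀ (by omega) (by omega)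
    have h3 : |u n * u n ^ d| = |u n| ^ (d + 1) := by rw [abs_mul, abs_pow]; ring
    rw [h3] at h1
    rw [pow_one] at h2
    omega
  have hw : ∀ n, |w n| ≤ 1 := by
    intro n
    obtain ⟨N, hN, hper⟩ := h.per
    rw [← (hper n).2, show n + N = (n + N - 1) + 1 by omega, h.e2, abs_pow]
    exact pow_le_one₀ (abs_nonneg _) (hu _)
  -- a point with `u ≠ 0`
  have hex : ∃ n, u n ≠ 0 := by
    by_cases h0 : u 0 = 0
    · refine ⟨1, ?_⟩
      intro h1
      have h2 := h.cop 0
      have h3 := h.e1 0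
      rw [h0, zero_pow (by omega), mul_zero, add_zero, zero_add, h1, mul_zero] at h3
      have h4 : w 0 = 0 := by
        by_contra h5
        exact pow_ne_zero d h5 h3.symm
      rw [h0, h4, isCoprime_zero_left] at h2
      exact not_isUnit_zero h2
    · exact ⟨0, h0⟩
  obtain ⟨n, hn⟩ := hex
  have h1 : |u n| = 1 := le_antisymm (hu n) (Int.one_le_abs hn)
  have h2 : u n ^ d = 1 := by rw [← hde.pow_abs, h1, one_pow]
  have h3 := h.e1 n
  rw [h2, mul_one] at h3
  have h4 : b = u (n + 1) - w n ^ d := by push_cast at h3; linarith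
  have h5 : |w n ^ d| ≤ 1 := by rw [abs_pow]; exact pow_le_one₀ (abs_nonneg _) (hw n)
  rw [h4]
  exact (abs_sub _ _).trans (by have := hu (n + 1); linarith)

end PSeq

end Pool.Agent.K6.H33.Neg
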