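import Pool.Agent.K6.H33.Gen

/-!
# `x ^ d + c`, `d ≡ 4 mod 6`: for all but finitely many `c` the rational preperiodic points are the
rational periodic points and their negatives
-/

set_option autoImplicit false

namespace Pool.Agent.K6.H33.Quart

open Finset Pool.Agent.T6.H62.UB Pool.Agent.T6.H62.PP Pool.Agent.T6.H62.PP.G Pool.Agent.K6.H33.Gen

/-- finitely many solutions -/
theorem sol_fin {d : ℕ} (hd : 2 ≤ d) (a k l : ℚ) :
    {s : ℚ | (s + a) * (s ^ d - 1) = k * s + l}.Finite := by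
  classical
  set p : Polynomial ℚ := (Polynomial.X + Polynomial.C a) * (Polynomial.X ^ d - Polynomial.C 1) -
    (Polynomial.C k * Polynomial.X + Polynomial.C l) with hp
  have hm : ((Polynomial.X + Polynomial.C a) * (Polynomial.X ^ d - Polynomial.C 1) :
      Polynomial ℚ).Monic :=
    (Polynomial.monic_X_add_C a).mul (Polynomial.monic_X_pow_sub_C 1 (by omega))
  have hdeg : (Polynomial.C k * Polynomial.X + Polynomial.C l : Polynomial ℚ).degree <
      ((Polynomial.X + Polynomial.C a) * (Polynomial.X ^ d - Polynomial.C 1) :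
        Polynomial ℚ).degree := by
    rw [Polynomial.degree_mul, Polynomial.degree_X_add_C, Polynomial.degree_X_pow_sub_C (by omega)]
    refine lt_of_le_of_lt (Polynomial.degree_linear_le) ?_
    have h1 : (1 : WithBot ℕ) < ((1 + d : ℕ) : WithBot ℕ) := by
      exact_mod_cast (by omega : 1 < 1 + d)
    push_cast at h1
    exact h1
  have hpm : p.Monic := hm.sub_of_left hdeg
  refine Set.Finite.subset p.roots.toFinset.finite_toSet fun s hs => ?_
  have hs' : (s + a) * (s ^ d - 1) = k * s + l := hs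
  rw [Finset.mem_coe, Multiset.mem_toFinset, Polynomial.mem_roots hpm.ne_zero,
    Polynomial.IsRoot.def]
  simp only [hp, Polynomial.eval_sub, Polynomial.eval_mul, Polynomial.eval_add, Polynomial.eval_X,
    Polynomial.eval_C, Polynomial.eval_pow]
  linear_combination hs'

theorem roots_fin {n : ℕ} (hn : 0 < n) (a : ℚ) : {y : ℚ | y ^ n = a}.Finite := by
  classical
  refine Set.Finite.subset (Polynomial.nthRoots n a).toFinset.finite_toSet fun y hy => ?_
  simp only [Finset.mem_coe, Multiset.mem_toFinset]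
  rwa [Polynomial.mem_nthRoots hn]

/-- exceptional parameters of the first kind -/
def E1 (d : ℕ) (F : Set ℚ) : Set ℚ := {c : ℚ | ∃ t ∈ F, ∃ t' ∈ F, ∃ t'' ∈ F, ∃ r : ℚ,
  1 - (t ^ d)⁻¹ ≠ 0 ∧ r ^ (d - 1) * (1 - (t ^ d)⁻¹) = -(t''⁻¹ + t'⁻¹) ∧ c = -(r / t'') - r ^ d}

/-- exceptional parameters of the second kind -/
def E2 (d : ℕ) (F : Set ℚ) : Set ℚ := {c : ℚ | ∃ t ∈ F, ∃ t' ∈ F, ∃ s r : ℚ,
  s ^ d - 1 ≠ 0 ∧ (s + t'⁻¹) * (s ^ d - 1) = 2 * ((t ^ d)⁻¹ - 1) * s + 0 ∧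
    r ^ (d - 1) * (s ^ d - 1) = 2 * s ∧ c = s * r - s ^ d * r ^ d}

/-- exceptional parameters of the third kind -/
def E3 (d : ℕ) (F : Set ℚ) : Set ℚ := {c : ℚ | ∃ t ∈ F, ∃ s r : ℚ,
  s ^ d - 1 ≠ 0 ∧ (s + 1) * (s ^ d - 1) = (t ^ d - 1) * s + -(t ^ d - 1) ∧
    r ^ (d - 1) * (s ^ d - 1) = 1 - s ∧ c = s * r - r ^ d}

theorem E1_fin {d : ℕ} (hd : 2 ≤ d) {F : Set ℚ} (hF : F.Finite) : (E1 d F).Finite := by
  have h1 : (F ×ˢ (F ×ˢ F)).Finite := hF.prod (hF.prod hF)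
  refine Set.Finite.subset (h1.biUnion (t := fun q : ℚ × ℚ × ℚ =>
    (fun r : ℚ => -(r / q.2.2) - r ^ d) '' {r : ℚ | r ^ (d - 1) =
      -(q.2.2⁻¹ + q.2.1⁻¹) / (1 - (q.1 ^ d)⁻¹)})
      (fun q _ => (roots_fin (by omega) _).image _)) ?_
  rintro c ⟨t, ht, t', ht', t'', ht'', r, h2, h3, rfl⟩
  rw [Set.mem_iUnion₂]
  refine ⟨(t, t', t''), ⟨ht, ht', ht''⟩, r, ?_, rfl⟩
  show r ^ (d - 1) = -(t''⁻¹ + t'⁻¹) / (1 - (t ^ d)⁻¹)
  rw [eq_div_iff h2, h3]

theorem E2_fin {d : ℕ} (hd : 2 ≤ d) {F : Set ℚ} (hF : F.Finite) : (E2 d F).Finite := by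
  have h1 : (F ×ˢ F).Finite := hF.prod hF
  refine Set.Finite.subset (h1.biUnion (t := fun q : ℚ × ℚ =>
    ⋃ s ∈ {s : ℚ | (s + q.2⁻¹) * (s ^ d - 1) = 2 * ((q.1 ^ d)⁻¹ - 1) * s + 0},
      (fun r : ℚ => s * r - s ^ d * r ^ d) '' {r : ℚ | r ^ (d - 1) = 2 * s / (s ^ d - 1)})
      (fun q _ => (sol_fin hd _ _ _).biUnion (fun s _ => (roots_fin (by omega) _).image _))) ?_
  rintro c ⟨t, ht, t', ht', s, r, h2, h3, h4, rfl⟩
  rw [Set.mem_iUnion₂]
  refine ⟨(t, t'), ⟨ht, ht'⟩, ?_⟩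
  rw [Set.mem_iUnion₂]
  refine ⟨s, h3, r, ?_, rfl⟩
  show r ^ (d - 1) = 2 * s / (s ^ d - 1)
  rw [eq_div_iff h2, h4]

theorem E3_fin {d : ℕ} (hd : 2 ≤ d) {F : Set ℚ} (hF : F.Finite) : (E3 d F).Finite := by
  refine Set.Finite.subset (hF.biUnion (t := fun q : ℚ =>
    ⋃ s ∈ {s : ℚ | (s + 1) * (s ^ d - 1) = (q ^ d - 1) * s + -(q ^ d - 1)},
      (fun r : ℚ => s * r - r ^ d) '' {r : ℚ | r ^ (d - 1) = (1 - s) / (s ^ d - 1)})
      (fun q _ => (sol_fin hd _ _ _).biUnion (fun s _ => (roots_fin (by omega) _).image _))) ?_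
  rintro c ⟨t, ht, s, r, h2, h3, h4, rfl⟩
  rw [Set.mem_iUnion₂]
  refine ⟨t, ht, ?_⟩
  rw [Set.mem_iUnion₂]
  refine ⟨s, h3, r, ?_, rfl⟩
  show r ^ (d - 1) = (1 - s) / (s ^ d - 1)
  rw [eq_div_iff h2, h4]

/-- The reduction for `x ^ d + c`, keeping the points. -/
theorem sys_c {d : ℕ} (hd : 2 ≤ d) {c : ℚ} {x0 : ℚ}
    (hx0 : IsPreperiodic (fun x : ℚ => x ^ d + c) x0) :
    ∃ (v : ℕ) (b : ℤ) (O : Finset ℤ) (φ : ℤ → ℤ) (u : ℤ), 0 < v ∧ c.den = v ^ d ∧ c.num = b ∧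
      Sys d 1 b (v ^ (d - 1)) O φ ∧ u ∈ O ∧ (u : ℚ) = v * x0 ∧
      (∀ u ∈ O, ∃ m n : ℕ, m < n ∧ φ^[m] u = φ^[n] u) ∧
      ∀ w ∈ O, Per φ w → ∃ n : ℕ, 0 < n ∧
        (fun x : ℚ => x ^ d + c)^[n] ((w : ℚ) / v) = (w : ℚ) / v := by
  classical
  set v := x0.den with hv
  have hv0 : 0 < v := x0.den_pos
  have hcd : c.den = v ^ d := den_eq hd hx0
  have hvQ : (v : ℚ) ≠ 0 := by exact_mod_cast hv0.ne'
  have hcQ : (c.num : ℚ) = c * (v : ℚ) ^ d := by
    have h1 : (c.num : ℚ) / c.den = c := Rat.num_div_den c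
    rw [hcd] at h1
    push_cast at h1
    rw [div_eq_iff (pow_ne_zero _ hvQ)] at h1
    exact h1
  have hcop : IsCoprime c.num ((v ^ (d - 1) : ℕ) : ℤ) := by
    have h1 : IsCoprime c.num (c.den : ℤ) := by
      rw [Int.isCoprime_iff_gcd_eq_one]
      exact c.reduced
    rw [hcd] at h1
    push_cast at h1 ⊢
    exact (IsCoprime.pow_right ((IsCoprime.pow_right_iff (by omega)).1 h1))
  have hstep : ∀ x : ℚ, (((1 : ℤ) : ℚ) * (v * x) ^ d + (c.num : ℚ)) / ((v ^ (d - 1) : ℕ) : ℚ) =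
      v * (x ^ d + c) := by
    intro x
    push_cast
    rw [hcQ, div_eq_iff (pow_ne_zero _ hvQ)]
    obtain ⟨e, rfl⟩ : ∃ e, d = e + 1 := ⟨d - 1, by omega⟩
    simp only [Nat.add_sub_cancel]
    ring
  have hconj : ∀ (k : ℕ) (x : ℚ), (fun x : ℚ => (((1 : ℤ) : ℚ) * x ^ d + (c.num : ℚ)) /
      ((v ^ (d - 1) : ℕ) : ℚ))^[k] (v * x) = v * (fun x : ℚ => x ^ d + c)^[k] x := by
    intro k
    induction k with
    | zero => intro x; rfl
    | succ k ih =>
      intro x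
      rw [Function.iterate_succ_apply, Function.iterate_succ_apply, ← ih]
      congr 1
      exact hstep x
  obtain ⟨O, φ, h1, h2, h3, h4⟩ := exists_sys hd (A := 1) (B := c.num) (V := v ^ (d - 1))
    one_ne_zero (by positivity) isCoprime_one_left hcop (by
      intro p hp hdvd
      have h5 : (p : ℤ) ∣ 1 := (dvd_pow_self _ (by omega)).trans hdvd
      have := Int.le_of_dvd one_pos h5
      have := hp.one_lt
      omega) ({(v : ℚ) * x0}) (by
      intro y hy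
      rw [mem_singleton] at hy
      subst hy
      obtain ⟨m, n, hmn, heq⟩ := hx0
      exact ⟨m, n, hmn, by rw [hconj, hconj, heq]⟩)
  obtain ⟨u, hu, hux⟩ := h2 _ (mem_singleton_self _)
  refine ⟨v, c.num, O, φ, u, hv0, hcd, rfl, h1, hu, hux, h4, ?_⟩
  rintro w hw ⟨n, hn, hper⟩
  refine ⟨n, hn, ?_⟩
  have hφ : ∀ y ∈ O, ((φ y : ℤ) : ℚ) / v = ((y : ℚ) / v) ^ d + c := by
    intro y hy
    have h5 := h1.eqn y hy
    have h6 : ((v ^ (d - 1) : ℕ) : ℚ) * (φ y : ℚ) = ((1 : ℤ) : ℚ) * (y : ℚ) ^ d + (c.num : ℚ) := by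
      exact_mod_cast h5
    have h7 := hstep ((y : ℚ) / v)
    rw [mul_div_cancel₀ _ hvQ, ← h6, mul_div_cancel_left₀ _ (by positivity)] at h7
    rw [h7, mul_div_cancel_left₀ _ hvQ]
  have hit : ∀ k : ℕ, (fun x : ℚ => x ^ d + c)^[k] ((w : ℚ) / v) = ((φ^[k] w : ℤ) : ℚ) / v := by
    intro k
    induction k with
    | zero => rfl
    | succ k ih =>
      rw [Function.iterate_succ_apply', Function.iterate_succ_apply', ih,
        hφ _ (h1.iter_mem hw k)]
  rw [hit, hper]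

theorem kinds {d v q : ℕ} {b : ℤ} {O : Finset ℤ} {φ : ℤ → ℤ} (h : Sys d 1 b (v ^ 3) O φ)
    (hde : Even d) (hd : 4 ≤ d) (hv : 2 ≤ v) (hq : 0 < q) (hqv : q ^ (d - 1) = v ^ 3)
    (hP : 2 ≤ (perSet φ O).card) {u w : ℤ} (hu : u ∈ O) (hw : w ∈ O) (pw : Per φ w)
    (huw : φ u = -w) {F : Set ℚ} (hF : ∀ X U : ℤ, F3 d X U → (X : ℚ) / (U : ℚ) ∈ F) :
    (b : ℚ) / (q : ℚ) ^ d ∈ E1 d F ∪ E2 d F ∪ E3 d F := by
  obtain ⟨e, rfl⟩ : ∃ e, d = e + 1 := ⟨d - 1, by omega⟩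
  simp only [Nat.add_sub_cancel] at hqv
  have hqQ : (q : ℚ) ≠ 0 := by exact_mod_cast hq.ne'
  have hV : ((v : ℚ)) ^ 3 = (q : ℚ) ^ e := by exact_mod_cast hqv.symm
  have hnz : ∀ y ∈ O, ((y : ℤ) : ℚ) ≠ 0 := fun y hy => by
    exact_mod_cast ne_zero_of_mem h (by omega) hv hy
  have heq : ∀ y ∈ O, (q : ℚ) ^ e * ((φ y : ℤ) : ℚ) = (y : ℚ) ^ (e + 1) + b := by
    intro y hy
    rw [← hV]
    exact_mod_cast eqn' h hy
  have hF3 : ∀ y ∈ O, Per φ y → φ y ≠ w → F3 (e + 1) u y := fun y hy py hyw =>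
    F3_of_tail h (by omega) hde hv hw pw le_rfl hu hy py (by simpa using huw) (by simpa using hyw)
  have hu0 := hnz u hu
  have hw0 := hnz w hw
  have equ : (q : ℚ) ^ e * (-(w : ℚ)) = (u : ℚ) ^ (e + 1) + b := by
    have h1 := heq u hu
    rw [huw] at h1
    push_cast at h1
    exact h1
  have hqe : (q : ℚ) ^ e ≠ 0 := pow_ne_zero _ hqQ
  -- the periodic preimage of `w`
  obtain ⟨N, hN, hNw⟩ := id pw
  set wm := φ^[N - 1] w with hwm
  have hwmO : wm ∈ O := h.iter_mem hw _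
  have hwmP : Per φ wm := pw.iter _
  have hφwm : φ wm = w := by
    rw [hwm, ← Function.iterate_succ_apply' φ, Nat.succ_eq_add_one, Nat.sub_add_cancel hN]
    exact hNw
  have hwm0 := hnz wm hwmO
  have eqm : (q : ℚ) ^ e * (w : ℚ) = (wm : ℚ) ^ (e + 1) + b := by
    have h1 := heq wm hwmO
    rwa [hφwm] at h1
  -- periodic points different from `wm` are not mapped to `w`
  have hnw : ∀ y, Per φ y → y ≠ wm → φ y ≠ w := by
    intro y py hy h1
    apply hy
    apply per_inj py hwmP (k := 1)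
    simpa using h1.trans hφwm.symm
  by_cases hsub : ∃ y ∈ O, Per φ y ∧ y ≠ wm ∧ φ y ≠ wm
  · obtain ⟨y, hy, py, hym, hφym⟩ := hsub
    have hy0 := hnz y hy
    have hφy0 := hnz _ (h.maps y hy)
    have pφy : Per φ (φ y) := by simpa using py.iter 1
    have f1 := hF3 y hy py (hnw y py hym)
    have f2 := hF3 _ (h.maps y hy) pφy (hnw _ pφy hφym)
    have eqy := heq y hy
    have hpow : (u : ℚ) ^ (e + 1) ≠ (y : ℚ) ^ (e + 1) := by exact_mod_cast f1.2.1
    have e1 : (q : ℚ) ^ e * (-(w : ℚ) - ((φ y : ℤ) : ℚ)) = (u : ℚ) ^ (e + 1) - (y : ℚ) ^ (e + 1) := by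
      linear_combination equ - eqy
    by_cases hww : w = wm
    · -- second kind
      left; right
      have e2 : 2 * (q : ℚ) ^ e * (w : ℚ) = (w : ℚ) ^ (e + 1) - (u : ℚ) ^ (e + 1) := by
        rw [← hww] at eqm
        linear_combination eqm - equ
      have hwu : (w : ℚ) ^ (e + 1) - (u : ℚ) ^ (e + 1) ≠ 0 := by
        rw [← e2]
        exact mul_ne_zero (mul_ne_zero two_ne_zero hqe) hw0
      refine ⟨_, hF _ _ f1, _, hF _ _ f2, (w : ℚ) / u, (u : ℚ) / q, ?_, ?_, ?_, ?_⟩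
      · rw [div_pow, div_sub_one (pow_ne_zero _ hu0)]
        exact div_ne_zero hwu (pow_ne_zero _ hu0)
      · rw [inv_div, ← inv_pow, inv_div, div_pow, div_pow, div_sub_one (pow_ne_zero _ hu0),
          div_sub_one (pow_ne_zero _ hu0), ← add_div, ← e2]
        have e3 : (y : ℚ) ^ (e + 1) - (u : ℚ) ^ (e + 1) = (q : ℚ) ^ e * (w + ((φ y : ℤ) : ℚ)) := by
          linear_combination e1
        rw [e3]
        field_simp
        try ring
      · simp only [Nat.add_sub_cancel]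
        rw [div_pow, div_pow, div_sub_one (pow_ne_zero _ hu0), ← e2]
        field_simp
        try ring
      · rw [div_eq_iff (pow_ne_zero _ hqQ)]
        have e4 : (b : ℚ) = (q : ℚ) ^ e * (w : ℚ) - (w : ℚ) ^ (e + 1) := by
          rw [← hww] at eqm
          linear_combination -eqm
        rw [e4, ← mul_pow, div_mul_div_cancel₀ hu0, div_pow, sub_mul,
          div_mul_cancel₀ _ (pow_ne_zero _ hqQ), pow_succ (q : ℚ) e]
        congr 1
        field_simp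
    · -- first kind
      left; left
      have f3 := hF3 w hw pw (hnw w pw hww)
      refine ⟨_, hF _ _ f1, _, hF _ _ f2, _, hF _ _ f3, (u : ℚ) / q, ?_, ?_, ?_⟩
      · rw [← inv_pow, inv_div, div_pow, one_sub_div (pow_ne_zero _ hu0)]
        exact div_ne_zero (sub_ne_zero.2 hpow) (pow_ne_zero _ hu0)
      · simp only [Nat.add_sub_cancel]
        rw [← inv_pow, inv_div, div_pow, div_pow, one_sub_div (pow_ne_zero _ hu0), ← e1, inv_div,
          inv_div, ← add_div]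
        field_simp
        ring
      · rw [div_eq_iff (pow_ne_zero _ hqQ)]
        have e4 : (b : ℚ) = (q : ℚ) ^ e * (-(w : ℚ)) - (u : ℚ) ^ (e + 1) := by
          linear_combination -equ
        have e5 : (u : ℚ) / q / ((u : ℚ) / w) = (w : ℚ) / q := by field_simp
        rw [e4, e5, div_pow, sub_mul, div_mul_cancel₀ _ (pow_ne_zero _ hqQ),
          pow_succ (q : ℚ) e]
        congr 1
        field_simp
  · -- third kind
    right
    push Not at hsub
    obtain ⟨y1, hy1, y2, hy2, hne⟩ := one_lt_card.1 (show 1 < (perSet φ O).card by omega)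
    obtain ⟨y, hy, hym⟩ : ∃ y ∈ perSet φ O, y ≠ wm := by
      by_cases h1 : y1 = wm
      · exact ⟨y2, hy2, fun h2 => hne (h1.trans h2.symm)⟩
      · exact ⟨y1, hy1, h1⟩
    obtain ⟨hyO, py⟩ := mem_perSet.1 hy
    have hφy := hsub y hyO py hym
    have hwne : w ≠ wm := by
      intro h1
      apply hym
      apply per_inj py hwmP (k := 1)
      simp only [Function.iterate_one]
      rw [hφy, hφwm, h1]
    have hφw := hsub w hw pw hwne
    have f1 := hF3 w hw pw (by rw [hφw]; exact hwne.symm)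
    have eqw : (q : ℚ) ^ e * (wm : ℚ) = (w : ℚ) ^ (e + 1) + b := by
      have h1 := heq w hw
      rwa [hφw] at h1
    have hwneQ : (w : ℚ) - wm ≠ 0 := sub_ne_zero.2 (by exact_mod_cast hwne)
    have e1 : (q : ℚ) ^ e * ((w : ℚ) - wm) = (wm : ℚ) ^ (e + 1) - (w : ℚ) ^ (e + 1) := by
      linear_combination eqm - eqw
    have e2 : (q : ℚ) ^ e * (-(w : ℚ) - wm) = (u : ℚ) ^ (e + 1) - (w : ℚ) ^ (e + 1) := by
      linear_combination equ - eqw
    refine ⟨_, hF _ _ f1, (wm : ℚ) / w, (w : ℚ) / q, ?_, ?_, ?_, ?_⟩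
    · rw [div_pow, div_sub_one (pow_ne_zero _ hw0), ← e1]
      exact div_ne_zero (mul_ne_zero hqe hwneQ) (pow_ne_zero _ hw0)
    · rw [div_pow, div_pow, div_sub_one (pow_ne_zero _ hw0), div_sub_one (pow_ne_zero _ hw0), ← e1,
        ← e2]
      field_simp
      try ring
    · simp only [Nat.add_sub_cancel]
      rw [div_pow, div_pow, div_sub_one (pow_ne_zero _ hw0), ← e1]
      field_simp
      try ring
    · rw [div_eq_iff (pow_ne_zero _ hqQ)]
      have e4 : (b : ℚ) = (q : ℚ) ^ e * (wm : ℚ) - (w : ℚ) ^ (e + 1) := by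
        linear_combination -eqw
      rw [e4, div_mul_div_cancel₀ hw0, div_pow, sub_mul,
        div_mul_cancel₀ _ (pow_ne_zero _ hqQ), pow_succ (q : ℚ) e]
      congr 1
      field_simp

/-- **All but finitely many parameters.** -/
theorem main {d : ℕ} (hde : Even d) (hd : 4 ≤ d) (h3 : 3 ∣ d - 1) :
    ∃ E : Set ℚ, E.Finite ∧ ∀ c ∉ E, ∀ x : ℚ, IsPreperiodic (fun x : ℚ => x ^ d + c) x →
      ∃ n : ℕ, 0 < n ∧ ((fun x : ℚ => x ^ d + c)^[n] x = x ∨
        (fun x : ℚ => x ^ d + c)^[n] (-x) = -x) := by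
  classical
  obtain ⟨hF0, -⟩ := fin_of sel gfin
  have hfin := hF0 d hde hd
  set F : Set ℚ := {t : ℚ | ∃ X U : ℤ, F3 d X U ∧ t = (X : ℚ) / (U : ℚ)} with hFdef
  obtain ⟨BT, hBT⟩ := tailG hF0 hde hd
  obtain ⟨k, hk⟩ := h3
  have hk0 : 1 ≤ k := by omega
  refine ⟨(E1 d F ∪ E2 d F ∪ E3 d F) ∪ (fun q : ℤ × ℕ => (q.1 : ℚ) / (q.2 : ℚ) ^ d) ''
    ((Icc (-(BT : ℤ) - 2) (BT + 2) ×ˢ range (BT + 2) : Finset (ℤ × ℕ)) : Set (ℤ × ℕ)), ?_, ?_⟩
  · exact (((E1_fin (by omega) hfin).union (E2_fin (by omega) hfin)).union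
      (E3_fin (by omega) hfin)).union ((Finset.finite_toSet _).image _)
  intro c hc x hx
  obtain ⟨q, b, O, φ, u0, hq, hden, hnum, h, hu0, hux, hev, hback⟩ := sys_c (by omega : 2 ≤ d) hx
  have hV : q ^ (d - 1) = (q ^ k) ^ 3 := by rw [← pow_mul, hk, Nat.mul_comm]
  have hqQ : (q : ℚ) ≠ 0 := by exact_mod_cast hq.ne'
  have hxu : x = (u0 : ℚ) / q := by rw [hux, mul_div_cancel_left₀ _ hqQ]
  by_cases hper : Per φ u0
  · obtain ⟨n, hn, h1⟩ := hback u0 hu0 hper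
    exact ⟨n, hn, Or.inl (by rw [hxu]; exact h1)⟩
  obtain ⟨k0, w, hw, pw, hkw⟩ := exists_tail h one_ne_zero hde (by omega) hu0 (hev u0 hu0) hper
  rcases Nat.eq_zero_or_pos k0 with hk00 | hk00
  · subst hk00
    obtain ⟨n, hn, h1⟩ := hback w hw pw
    refine ⟨n, hn, Or.inr ?_⟩
    have h2 : -x = (w : ℚ) / q := by
      have h3 : u0 = -w := hkw
      rw [hxu, h3]; push_cast; ring
    rw [h2]; exact h1
  exfalso
  apply hc
  rw [hV] at h
  have hcb : c = (b : ℚ) / (q : ℚ) ^ d := by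
    rw [← Rat.num_div_den c, hden, hnum]
    push_cast
    rfl
  have small : q ≤ BT + 1 → |b| ≤ BT + 2 → c ∈ (fun q : ℤ × ℕ => (q.1 : ℚ) / (q.2 : ℚ) ^ d) ''
      ((Icc (-(BT : ℤ) - 2) (BT + 2) ×ˢ range (BT + 2) : Finset (ℤ × ℕ)) : Set (ℤ × ℕ)) := by
    intro h1 h2
    refine ⟨(b, q), ?_, hcb.symm⟩
    rw [Finset.mem_coe, mem_product, mem_Icc, mem_range]
    rw [abs_le] at h2
    exact ⟨⟨by simp only; omega, by simp only; omega⟩, by simp only; omega⟩
  obtain ⟨j, rfl⟩ : ∃ j, k0 = j + 1 := ⟨k0 - 1, by omega⟩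
  rw [Function.iterate_succ_apply'] at hkw
  set u := φ^[j] u0 with hu
  have huO : u ∈ O := h.iter_mem hu0 j
  by_cases hP1 : (perSet φ O).card ≤ 1
  · right
    have hwP : w ∈ perSet φ O := mem_perSet.2 ⟨hw, pw⟩
    have hφwP : φ w ∈ perSet φ O := mem_perSet.2 ⟨h.maps w hw, by simpa using pw.iter 1⟩
    have hfw : φ w = w := card_le_one.1 hP1 _ hφwP _ hwP
    by_cases hz0 : w = 0
    · have h1 := h.eqn w hw
      rw [hfw, hz0, zero_pow (by omega)] at h1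
      have hb0 : b = 0 := by linarith
      subst hb0
      have hq1 : q = 1 := by
        have h2 := h.copB
        rw [isCoprime_zero_left] at h2
        rw [← hV] at h2
        have h3 : q ^ (d - 1) = 1 := by
          have := Int.isUnit_iff_natAbs_eq.1 h2
          simpa using this
        exact (Nat.pow_eq_one.1 h3).resolve_right (by omega)
      exact small (by omega) (by rw [abs_zero]; positivity)
    · have h1 := hBT 1 b w u (q ^ k) one_ne_zero (by positivity) h.copA h.copB hz0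
        (by have := h.eqn w hw; rwa [hfw] at this)
        (by have := h.eqn u huO; rwa [hkw] at this)
      have h2 : q ≤ (q ^ k) ^ 3 := by
        calc q = q ^ 1 := (pow_one q).symm
          _ ≤ q ^ (k * 3) := Nat.pow_le_pow_right hq (by omega)
          _ = (q ^ k) ^ 3 := pow_mul q k 3
      refine small (by omega) ?_
      rw [← Int.natCast_natAbs b]
      omega
  · obtain ⟨y1, hy1, y2, hy2, hne⟩ := one_lt_card.1 (show 1 < (perSet φ O).card by omega)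
    obtain ⟨hy1, py1⟩ := mem_perSet.1 hy1
    obtain ⟨hy2, py2⟩ := mem_perSet.1 hy2
    rcases Nat.lt_or_ge q 2 with hq2 | hq2
    · right
      have hq1 : q = 1 := by omega
      subst hq1
      rw [one_pow] at h
      have h1 := ints h (by omega) hde hy1 hy2 py1 py2 hne
      exact small (by omega) (by omega)
    · left
      have hqk : 2 ≤ q ^ k := by
        calc 2 ≤ q := hq2
          _ = q ^ 1 := (pow_one q).symm
          _ ≤ q ^ k := Nat.pow_le_pow_right hq hk0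
      rw [hcb]
      exact kinds h hde hd hqk hq hV (by omega) huO hw pw hkw
        (fun X U hXU => ⟨X, U, hXU, rfl⟩)

end Pool.Agent.K6.H33.Quart
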