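import Pool.Agent.K6.H33.Gen

/-!
# All but finitely many of the polynomials `(A x ^ d + b) / v ^ 3`, `d ≥ 6` even, have at most two
rational preperiodic points
-/

set_option autoImplicit false

namespace Pool.Agent.K6.H33.Tw

open Finset Pool.Agent.T6.H62.UB Pool.Agent.T6.H62.PP Pool.Agent.T6.H62.PP.G Pool.Agent.K6.H33.Gen

/-- The parameters of the systems with `A = 1` and two periodic points are bounded. -/
theorem bdd_one {d : ℕ} (hde : Even d) (hd : 6 ≤ d) : ∃ N : ℕ,
    ∀ (b : ℤ) (v : ℕ) (O : Finset ℤ) (φ : ℤ → ℤ), Sys d 1 b (v ^ 3) O φ → 0 < v →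
      ∀ u w : ℤ, u ∈ O → w ∈ O → Per φ u → Per φ w → u ≠ w → v ≤ N ∧ b.natAbs ≤ N := by
  classical
  obtain ⟨-, hF'⟩ := fin_of sel gfin
  have hfin := hF' d hde hd
  set F : Set ℚ := {t : ℚ | ∃ X U : ℤ, F3' d X U ∧ t = (X : ℚ) / (U : ℚ)} with hFdef
  have h1 : (F ×ˢ (F ×ˢ insert 1 F)).Finite := hfin.prod (hfin.prod (hfin.insert 1))
  set κ : ℚ × ℚ × ℚ → ℚ := fun q => (q.2.1 - 1) * q.2.2 / (q.1 ^ d - 1) with hκ
  set bd : ℚ × ℚ × ℚ → ℕ := fun q => (κ q).den +
    ⌈((κ q).den : ℚ) * (|q.2.2| * ((κ q).num.natAbs : ℚ)) + ((κ q).num.natAbs : ℚ) ^ d⌉₊ with hbd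
  refine ⟨max 2 (h1.toFinset.sup bd), ?_⟩
  intro b v O φ h hv u w hu hw pu pw hne
  rcases Nat.lt_or_ge v 2 with hv2 | hv2
  · have hv1 : v = 1 := by omega
    subst hv1
    have h2 := ints h (by omega) hde hu hw pu pw hne
    have h4 : (b.natAbs : ℤ) = |b| := Int.natCast_natAbs b
    have h3 : b.natAbs ≤ 2 := by omega
    exact ⟨(by omega : 1 ≤ 2).trans (le_max_left _ _), h3.trans (le_max_left _ _)⟩
  obtain ⟨t, ht, t', ht', t'', ht'', hpow, e1, e2, hw0⟩ := ratios h (by omega) hv2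
    (F := F) (fun X U hXU => ⟨X, U, hXU, rfl⟩) hu hw pu pw hne
  have hmem : (t, t', t'') ∈ h1.toFinset := h1.mem_toFinset.2 ⟨ht, ht', ht''⟩
  have hle : bd (t, t', t'') ≤ h1.toFinset.sup bd := Finset.le_sup hmem
  have hcop : IsCoprime (w ^ (d - 1)) ((v ^ 3 : ℕ) : ℤ) := by
    apply IsCoprime.pow_left
    rw [Int.isCoprime_iff_gcd_eq_one]
    by_contra hcon
    obtain ⟨p, hp, hpg⟩ := Nat.exists_prime_and_dvd hcon
    have h4 : (p : ℤ) ∣ w := (Int.natCast_dvd_natCast.2 hpg).trans (Int.gcd_dvd_left _ _)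
    have h5 : (p : ℤ) ∣ ((v ^ 3 : ℕ) : ℤ) :=
      (Int.natCast_dvd_natCast.2 hpg).trans (Int.gcd_dvd_right _ _)
    have h6 : p ∣ v := hp.dvd_of_dvd_pow (Int.natCast_dvd_natCast.1 h5)
    exact not_dvd_of_mem h (by omega) hp h6 hw h4
  have hvQ : ((v : ℚ)) ^ 3 ≠ 0 := pow_ne_zero _ (by exact_mod_cast (by omega : v ≠ 0))
  have hκw : κ (t, t', t'') = ((w ^ (d - 1) : ℤ) : ℚ) / (((v ^ 3 : ℕ) : ℤ) : ℚ) := by
    simp only [hκ]
    push_cast
    rw [div_eq_div_iff (sub_ne_zero.2 hpow) hvQ]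
    linear_combination -e1
  have hden : (κ (t, t', t'')).den = v ^ 3 := by
    rw [hκw]
    have h4 := Rat.den_div_eq_of_coprime (a := w ^ (d - 1)) (b := ((v ^ 3 : ℕ) : ℤ))
      (by positivity) (Int.isCoprime_iff_gcd_eq_one.1 hcop)
    exact_mod_cast h4
  have hnum : (κ (t, t', t'')).num = w ^ (d - 1) := by
    rw [hκw]
    exact Rat.num_div_eq_of_coprime (a := w ^ (d - 1)) (b := ((v ^ 3 : ℕ) : ℤ))
      (by positivity) (Int.isCoprime_iff_gcd_eq_one.1 hcop)
  have hwle : w.natAbs ≤ (κ (t, t', t'')).num.natAbs := by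
    rw [hnum, Int.natAbs_pow]
    calc w.natAbs = w.natAbs ^ 1 := (pow_one _).symm
      _ ≤ w.natAbs ^ (d - 1) := Nat.pow_le_pow_right (Int.natAbs_pos.2 hw0) (by omega)
  have hvle : v ≤ (κ (t, t', t'')).den := by
    rw [hden]
    calc v = v ^ 1 := (pow_one _).symm
      _ ≤ v ^ 3 := Nat.pow_le_pow_right hv (by norm_num)
  have hble : b.natAbs ≤ ⌈((κ (t, t', t'')).den : ℚ) * (|t''| *
      ((κ (t, t', t'')).num.natAbs : ℚ)) + ((κ (t, t', t'')).num.natAbs : ℚ) ^ d⌉₊ := by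
    have h4 : (b.natAbs : ℚ) ≤ ((κ (t, t', t'')).den : ℚ) * (|t''| *
        ((κ (t, t', t'')).num.natAbs : ℚ)) + ((κ (t, t', t'')).num.natAbs : ℚ) ^ d := by
      have h5 : (b.natAbs : ℚ) = |(b : ℚ)| := by rw [Nat.cast_natAbs, Int.cast_abs]
      have h6 : |(w : ℚ)| ≤ ((κ (t, t', t'')).num.natAbs : ℚ) := by
        have h7 : ((w.natAbs : ℕ) : ℚ) = |(w : ℚ)| := by rw [Nat.cast_natAbs, Int.cast_abs]
        rw [← h7]
        exact_mod_cast hwle
      rw [h5, e2, hden]
      refine (abs_sub _ _).trans (add_le_add ?_ ?_)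
      · rw [abs_mul, abs_mul, abs_pow, Nat.abs_cast]
        push_cast
        exact mul_le_mul_of_nonneg_left (mul_le_mul_of_nonneg_left h6 (abs_nonneg _))
          (by positivity)
      · rw [abs_pow]
        exact pow_le_pow_left₀ (abs_nonneg _) h6 d
    exact_mod_cast h4.trans (Nat.le_ceil _)
  have hsum : bd (t, t', t'') = (κ (t, t', t'')).den + ⌈((κ (t, t', t'')).den : ℚ) * (|t''| *
      ((κ (t, t', t'')).num.natAbs : ℚ)) + ((κ (t, t', t'')).num.natAbs : ℚ) ^ d⌉₊ := rfl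
  refine ⟨?_, ?_⟩
  · exact (hvle.trans (Nat.le_add_right _ _)).trans (hle.trans (le_max_right _ _))
  · exact (hble.trans (Nat.le_add_left _ _)).trans (hle.trans (le_max_right _ _))

/-- **The parameters of the systems with more than two points are bounded.** -/
theorem bdd {d : ℕ} (hde : Even d) (hd : 6 ≤ d) : ∃ N : ℕ,
    ∀ (A b : ℤ) (v : ℕ) (O : Finset ℤ) (φ : ℤ → ℤ), Sys d A b (v ^ 3) O φ → A ≠ 0 → 0 < v →
      (∀ u ∈ O, ∃ m n : ℕ, m < n ∧ φ^[m] u = φ^[n] u) → 2 < O.card →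
        A.natAbs ≤ N ∧ b.natAbs ≤ N ∧ v ≤ N := by
  classical
  obtain ⟨hF, -⟩ := fin_of sel gfin
  obtain ⟨N1, hN1⟩ := bdd_one hde hd
  obtain ⟨BT, hBT⟩ := tailG hF hde (by omega : 4 ≤ d)
  refine ⟨max (N1 + 1) BT, ?_⟩
  intro A b v O φ h hA hv hev hcard
  by_cases hP1 : (perSet φ O).card ≤ 1
  · rcases tail_one h hA hde (by omega) hev hP1 with ⟨z, x, hz, hx, hfz, hfx⟩ | h1
    · have hz0 : z ≠ 0 := by
        rintro rfl
        -- then `b = 0` and all points are zero
        have hb0 : b = 0 := by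
          have h1 := h.eqn 0 hz
          rw [hfz, zero_pow (by omega), mul_zero, mul_zero, zero_add] at h1
          exact h1.symm
        have h0P : (0 : ℤ) ∈ perSet φ O := mem_perSet.2 ⟨hz, 1, one_pos, by simpa using hfz⟩
        have hφ0 : ∀ y ∈ O, φ y = 0 → y = 0 := by
          intro y hy h2
          have h3 := h.eqn y hy
          rw [h2, mul_zero, hb0, add_zero] at h3
          rcases mul_eq_zero.1 h3.symm with h4 | h4
          · exact absurd h4 hA
          · by_contra h5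
            exact pow_ne_zero d h5 h4
        have hit : ∀ k : ℕ, ∀ y ∈ O, φ^[k] y = 0 → y = 0 := by
          intro k
          induction k with
          | zero => intro y _ h2; exact h2
          | succ k ih =>
            intro y hy h2
            rw [Function.iterate_succ_apply] at h2
            exact hφ0 y hy (ih _ (h.maps y hy) h2)
        have hsub : O ⊆ {0} := by
          intro y hy
          rw [mem_singleton]
          obtain ⟨m, n, hmn, heq⟩ := hev y hy
          have hper : Per φ (φ^[m] y) := by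
            refine ⟨n - m, by omega, ?_⟩
            rw [← Function.iterate_add_apply, Nat.sub_add_cancel hmn.le, heq]
          have h2 : φ^[m] y = 0 := card_le_one.1 hP1 _ (mem_perSet.2 ⟨h.iter_mem hy m, hper⟩) _ h0P
          exact hit m y hy h2
        have h2 := card_le_card hsub
        rw [card_singleton] at h2
        omega
      have e1 : ((v ^ 3 : ℕ) : ℤ) * z = A * z ^ d + b := by
        have := h.eqn z hz
        rwa [hfz] at this
      have h1 := hBT A b z x v hA hv h.copA h.copB hz0 e1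
        (by have := h.eqn x hx; rwa [hfx] at this)
      have hvle : v ≤ v ^ 3 := by
        calc v = v ^ 1 := (pow_one v).symm
          _ ≤ v ^ 3 := Nat.pow_le_pow_right hv (by norm_num)
      have hAle : A.natAbs ≤ v ^ 3 + b.natAbs := by
        have h2 : A * z ^ d = ((v ^ 3 : ℕ) : ℤ) * z - b := by linear_combination -e1
        have h3 : (A * z ^ d).natAbs ≤ v ^ 3 * z.natAbs + b.natAbs := by
          rw [h2]
          refine (Int.natAbs_sub_le _ _).trans ?_
          rw [Int.natAbs_mul, Int.natAbs_natCast]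
        rw [Int.natAbs_mul, Int.natAbs_pow] at h3
        have hz1 : 1 ≤ z.natAbs := Int.natAbs_pos.2 hz0
        have h4 : A.natAbs * z.natAbs ≤ A.natAbs * z.natAbs ^ d := by
          apply Nat.mul_le_mul_left
          calc z.natAbs = z.natAbs ^ 1 := (pow_one _).symm
            _ ≤ z.natAbs ^ d := Nat.pow_le_pow_right hz1 (by omega)
        have h5 : A.natAbs * z.natAbs ≤ (v ^ 3 + b.natAbs) * z.natAbs := by
          calc A.natAbs * z.natAbs ≤ v ^ 3 * z.natAbs + b.natAbs := h4.trans h3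
            _ ≤ v ^ 3 * z.natAbs + b.natAbs * z.natAbs :=
              Nat.add_le_add_left (Nat.le_mul_of_pos_right _ hz1) _
            _ = _ := by ring
        exact Nat.le_of_mul_le_mul_right h5 hz1
      refine ⟨?_, ?_, ?_⟩ <;> refine le_trans ?_ (le_max_right _ _) <;> omega
    · omega
  · obtain ⟨y1, hy1, y2, hy2, hne⟩ := one_lt_card.1 (show 1 < (perSet φ O).card by omega)
    obtain ⟨hy1O, py1⟩ := mem_perSet.1 hy1
    obtain ⟨hy2O, py2⟩ := mem_perSet.1 hy2
    rcases unit_of_per h hy1O hy2O py1 py2 hne with hA1 | hA1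
    · subst hA1
      obtain ⟨h1, h2⟩ := hN1 b v O φ h hv y1 y2 hy1O hy2O py1 py2 hne
      refine ⟨?_, ?_, ?_⟩ <;> refine le_trans ?_ (le_max_left _ _) <;> omega
    · subst hA1
      have hs := neg_sys h hde
      rw [neg_neg] at hs
      have hpn : ∀ u, Per φ u → Per (fun u => -φ (-u)) (-u) := by
        rintro u ⟨n, hn, hu⟩
        exact ⟨n, hn, by rw [neg_iter, hu]⟩
      obtain ⟨h1, h2⟩ := hN1 (-b) v _ _ hs hv (-y1) (-y2) (mem_image_of_mem _ hy1O)
        (mem_image_of_mem _ hy2O) (hpn _ py1) (hpn _ py2) (fun h3 => hne (neg_injective h3))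
      rw [Int.natAbs_neg] at h2
      refine ⟨?_, ?_, ?_⟩ <;> refine le_trans ?_ (le_max_left _ _) <;> omega

end Pool.Agent.K6.H33.Tw
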